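import Pool.Agent.Y63.AWC.Deg

/-!
# Homomorphisms from surface groups to finite groups
-/

open scoped BigOperators Classical
open Representation Pool.Agent.Helper884.IC Pool.Agent.Y63.AWC

set_option linter.unusedSectionVars false

noncomputable section

namespace Pool.Agent.Y63.KR

/-- The product of commutators `∏ a_i b_i a_i⁻¹ b_i⁻¹` of `g` pairs. -/
def surfaceWord {g : ℕ} {G : Type} [Group G] (q : Fin g → G × G) : G :=
  (List.ofFn fun i => (q i).1 * (q i).2 * (q i).1⁻¹ * (q i).2⁻¹).prod

/-- The number of homomorphisms from the fundamental group of the closed orientable surface of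
genus `g` to `G`: the number of `2g`-tuples with `∏ a_i b_i a_i⁻¹ b_i⁻¹ = 1`. -/
def numHom (g : ℕ) (G : Type) [Group G] : ℕ :=
  Nat.card {q : Fin g → G × G // surfaceWord q = 1}

section

variable {G : Type} [Group G]

lemma surfaceWord_cons {g : ℕ} (c : G × G) (q : Fin g → G × G) :
    surfaceWord (Fin.cons c q : Fin (g + 1) → G × G) =
      c.1 * c.2 * c.1⁻¹ * c.2⁻¹ * surfaceWord q := by
  unfold surfaceWord
  rw [List.ofFn_succ, List.prod_cons]
  simp

variable [Fintype G]

lemma sum_word {V : Type} [AddCommGroup V] [Module ℂ V] (rho : Representation ℂ G V) (g : ℕ) :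
    ∑ q : Fin g → G × G, rho (surfaceWord q) =
      (∑ c : G × G, rho (c.1 * c.2 * c.1⁻¹ * c.2⁻¹)) ^ g := by
  induction g with
  | zero =>
    rw [pow_zero, Fintype.sum_unique]
    have : surfaceWord (default : Fin 0 → G × G) = 1 := by
      unfold surfaceWord
      simp
    rw [this, map_one]
  | succ g ih =>
    rw [pow_succ', ← ih, ← (Fin.consEquiv (fun _ : Fin (g + 1) => G × G)).sum_comp,
      Fintype.sum_prod_type, Finset.sum_mul]
    refine Finset.sum_congr rfl fun c _ => ?_
    rw [Finset.mul_sum]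
    refine Finset.sum_congr rfl fun q _ => ?_
    rw [← map_mul]
    congr 1
    exact surfaceWord_cons c q

lemma sum_char_inv {chi : G → ℂ} (h : IsIrrChar chi) :
    ∑ g : G, chi g * chi g⁻¹ = (Nat.card G : ℂ) := by
  have h1 := B_irr h h
  rw [if_pos rfl] at h1
  unfold B at h1
  have h2 := cardG_ne (G := G)
  field_simp at h1
  exact h1

/-- the sum over all commutators acts as the scalar `(|G| / n)^2` -/
lemma comm_scalar {V : Type} [AddCommGroup V] [Module ℂ V] [FiniteDimensional ℂ V]
    (rho : Representation ℂ G V) (hr : rho.IsIrreducible) :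
    ∑ c : G × G, rho (c.1 * c.2 * c.1⁻¹ * c.2⁻¹) =
      (((Nat.card G : ℂ) / rho.character 1) ^ 2) • (LinearMap.id : V →ₗ[ℂ] V) := by
  have hirr : IsIrrChar rho.character := ⟨V, _, _, ‹_›, rho, hr, rfl⟩
  have hn : rho.character 1 ≠ 0 := one_ne hirr
  have hcG := cardG_ne (G := G)
  -- inner sums
  have hin : ∀ a : G, ∑ b : G, rho (b * a⁻¹ * b⁻¹) =
      ((Nat.card G : ℂ) * rho.character a⁻¹ / rho.character 1) • (LinearMap.id : V →ₗ[ℂ] V) := by
    intro a
    let f : G → ℂ := fun x => ∑ b : G, if b * a * b⁻¹ = x then (1 : ℂ) else 0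
    have hf : IsClass f := by
      intro x y
      simp only [f]
      refine Fintype.sum_equiv (Equiv.mulLeft y⁻¹) _ _ fun b => ?_
      congr 1
      rw [Equiv.coe_mulLeft]
      apply propext
      constructor
      · intro h
        calc y⁻¹ * b * a * (y⁻¹ * b)⁻¹ = y⁻¹ * (b * a * b⁻¹) * y := by group
          _ = x := by rw [h]; group
      · intro h
        calc b * a * b⁻¹ = y * (y⁻¹ * b * a * (y⁻¹ * b)⁻¹) * y⁻¹ := by group
          _ = y * x * y⁻¹ := by rw [h]
    obtain ⟨c, hc⟩ := top_scalar rho hr f hf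
    have e1 : Helper884.IC.Top rho f = ∑ b : G, rho (b * a⁻¹ * b⁻¹) := by
      unfold Helper884.IC.Top
      simp only [f, Finset.sum_smul]
      rw [Finset.sum_comm]
      refine Finset.sum_congr rfl fun b _ => ?_
      rw [Finset.sum_eq_single (b * a * b⁻¹)]
      · rw [if_pos rfl, one_smul]
        congr 1
        group
      · intro x _ hx
        rw [if_neg (fun h => hx h.symm), zero_smul]
      · intro h
        exact absurd (Finset.mem_univ _) h
    rw [← e1, hc]
    congr 1
    have h2 := congrArg (LinearMap.trace ℂ V) hc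
    rw [e1, map_sum, map_smul, LinearMap.trace_id, smul_eq_mul, ← rho.char_one] at h2
    have h3 : ∀ b : G, LinearMap.trace ℂ V (rho (b * a⁻¹ * b⁻¹)) = rho.character a⁻¹ := by
      intro b
      exact rho.char_conj a⁻¹ b
    rw [Finset.sum_congr rfl fun b _ => h3 b, Finset.sum_const, Finset.card_univ, nsmul_eq_mul,
      ← Nat.card_eq_fintype_card] at h2
    rw [h2]
    field_simp
  have h1 : ∑ c : G × G, rho (c.1 * c.2 * c.1⁻¹ * c.2⁻¹) =
      ∑ a : G, rho a * ∑ b : G, rho (b * a⁻¹ * b⁻¹) := by
    rw [Fintype.sum_prod_type]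
    refine Finset.sum_congr rfl fun a _ => ?_
    rw [Finset.mul_sum]
    refine Finset.sum_congr rfl fun b _ => ?_
    rw [← map_mul]
    congr 1
    group
  rw [h1]
  have h2 : ∑ a : G, rho a * ∑ b : G, rho (b * a⁻¹ * b⁻¹) =
      ((Nat.card G : ℂ) / rho.character 1) • Helper884.IC.Top rho rho.character := by
    unfold Helper884.IC.Top
    rw [Finset.smul_sum]
    refine Fintype.sum_equiv (Equiv.inv G) _ _ fun a => ?_
    rw [hin a, Equiv.inv_apply, inv_inv, smul_smul]
    ext v
    simp only [Module.End.mul_apply, LinearMap.smul_apply, LinearMap.id_apply, map_smul]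
    congr 1
    ring
  rw [h2]
  obtain ⟨c, hc⟩ := top_scalar rho hr rho.character hirr.isClass
  have htr : LinearMap.trace ℂ V (Helper884.IC.Top rho rho.character)
      = ∑ g : G, rho.character g * rho.character g⁻¹ := by
    simp [Helper884.IC.Top, Representation.character]
  rw [sum_char_inv hirr, hc, map_smul, LinearMap.trace_id, smul_eq_mul, ← rho.char_one] at htr
  rw [hc, smul_smul]
  congr 1
  rw [← htr]
  field_simp

/-- the degree of a character as a natural number -/
def dg (chi : G → ℂ) : ℕ := ⌊(chi 1).re⌋₊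

lemma dg_spec {chi : G → ℂ} (h : IsIrrChar chi) : chi 1 = (dg chi : ℂ) ∧ 0 < dg chi := by
  obtain ⟨n, hn, h1⟩ := deg_nat h
  have : dg chi = n := by
    unfold dg
    rw [h1]
    simp
  rw [this]
  exact ⟨h1, hn⟩

/-- `|G| / χ(1)` -/
def cod (chi : G → ℂ) : ℕ := Nat.card G / dg chi

lemma cod_spec {chi : G → ℂ} (h : IsIrrChar chi) : dg chi * cod chi = Nat.card G :=
  Nat.mul_div_cancel' (deg_dvd h (dg_spec h).1)

/-- **Frobenius–Mednykh formula.** -/
theorem numHom_eq (g : ℕ) :
    numHom (g + 1) G = Nat.card G * ∑ chi ∈ Irr G, cod chi ^ (2 * g) := by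
  have hcG := cardG_ne (G := G)
  have key : ∀ chi : G → ℂ, IsIrrChar chi →
      ∑ q : Fin (g + 1) → G × G, chi (surfaceWord q) =
        chi 1 * ((Nat.card G : ℂ) / chi 1) ^ (2 * (g + 1)) := by
    intro chi h
    obtain ⟨V, _, _, _, rho, hr, rfl⟩ := h
    have h1 := congrArg (LinearMap.trace ℂ V) (sum_word rho (g + 1))
    rw [comm_scalar rho hr, map_sum] at h1
    have h2 : ((((Nat.card G : ℂ) / rho.character 1) ^ 2) • (LinearMap.id : V →ₗ[ℂ] V)) ^ (g + 1) =
        (((Nat.card G : ℂ) / rho.character 1) ^ (2 * (g + 1))) • (LinearMap.id : V →ₗ[ℂ] V) := by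
      rw [pow_mul]
      generalize ((Nat.card G : ℂ) / rho.character 1) ^ 2 = c
      generalize g + 1 = k
      induction k with
      | zero => rw [pow_zero, pow_zero, one_smul]; rfl
      | succ k ih =>
        rw [pow_succ, ih]
        ext v
        simp [smul_smul, pow_succ, mul_comm]
    rw [h2, map_smul, LinearMap.trace_id, smul_eq_mul, ← rho.char_one] at h1
    rw [mul_comm]
    exact h1
  have h1 : ∑ chi ∈ Irr G, ∑ q : Fin (g + 1) → G × G, chi (surfaceWord q) * chi 1⁻¹ =
      (Nat.card G : ℂ) * (numHom (g + 1) G : ℂ) := by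
    rw [Finset.sum_comm]
    simp_rw [col_orth]
    have h2 : ∀ q : Fin (g + 1) → G × G,
        (Nat.card {n : G // n * surfaceWord q * n⁻¹ = 1} : ℂ) =
          if surfaceWord q = 1 then (Nat.card G : ℂ) else 0 := by
      intro q
      by_cases hq : surfaceWord q = 1
      · rw [if_pos hq, hq]
        norm_cast
        refine Nat.card_congr (Equiv.subtypeUnivEquiv fun n => by group)
      · rw [if_neg hq]
        norm_cast
        rw [Nat.card_eq_zero]
        left
        constructor
        rintro ⟨n, hn⟩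
        apply hq
        calc surfaceWord q = n⁻¹ * (n * surfaceWord q * n⁻¹) * n := by group
          _ = 1 := by rw [hn]; group
    rw [Finset.sum_congr rfl fun q _ => h2 q, ← Finset.sum_filter, Finset.sum_const, nsmul_eq_mul,
      mul_comm]
    congr 2
    unfold numHom
    rw [Nat.card_eq_fintype_card, Fintype.card_subtype]
  have h3 : ∀ chi ∈ Irr G, ∑ q : Fin (g + 1) → G × G, chi (surfaceWord q) * chi 1⁻¹ =
      (Nat.card G : ℂ) ^ 2 * (cod chi : ℂ) ^ (2 * g) := by
    intro chi hchi
    have h := mem_Irr.mp hchi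
    rw [← Finset.sum_mul, key chi h, inv_one]
    obtain ⟨h4, h5⟩ := dg_spec h
    have h6 : (Nat.card G : ℂ) = (dg chi : ℂ) * (cod chi : ℂ) := by
      rw [← cod_spec h]
      push_cast
      ring
    have h7 : (dg chi : ℂ) ≠ 0 := by exact_mod_cast h5.ne'
    rw [h4, h6, mul_div_cancel_left₀ _ h7]
    ring
  rw [Finset.sum_congr rfl h3, ← Finset.mul_sum] at h1
  have h4 : (Nat.card G : ℂ) * (∑ chi ∈ Irr G, (cod chi : ℂ) ^ (2 * g)) = (numHom (g + 1) G : ℂ) := by
    apply mul_left_cancel₀ hcG
    rw [← h1]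
    ring
  have h5 : ((numHom (g + 1) G : ℕ) : ℂ) = ((Nat.card G * ∑ chi ∈ Irr G, cod chi ^ (2 * g) : ℕ) : ℂ) := by
    rw [← h4]
    push_cast
    rfl
  exact_mod_cast h5

end

end Pool.Agent.Y63.KR
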