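import Pool.Agent.Y63.KR.Defs

/-!
# Alternating sums over chains of `p`-subgroups: orbit counting and cancellation
-/

open scoped Classical BigOperators

set_option linter.unusedSectionVars false

noncomputable section

namespace Pool.Agent.Y63.KR

/-- sums over orbits as weighted sums over points -/
theorem orbit_sum {G Ω : Type} [Group G] [Finite G] [Fintype Ω] [MulAction G Ω] (s : Setoid Ω)
    (hs : ∀ a b, s.r a b ↔ ∃ g : G, g • a = b) (f : Ω → ℤ) (hf : ∀ a b, s.r a b → f a = f b) :
    (Nat.card G : ℤ) * ∑ᶠ c : Quotient s, f c.out =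
      ∑ ω : Ω, (Nat.card (MulAction.stabilizer G ω) : ℤ) * f ω := by
  have : Fintype G := Fintype.ofFinite G
  rw [finsum_eq_sum_of_fintype, Finset.mul_sum]
  have h1 : ∑ ω : Ω, (Nat.card (MulAction.stabilizer G ω) : ℤ) * f ω = ∑ c : Quotient s,
      ∑ ω ∈ Finset.univ.filter (fun ω : Ω => Quotient.mk s ω = c),
        (Nat.card (MulAction.stabilizer G ω) : ℤ) * f ω :=
    (Finset.sum_fiberwise Finset.univ (fun ω : Ω => Quotient.mk s ω) _).symm
  rw [h1]
  refine Finset.sum_congr rfl fun c _ => ?_
  have horb : ∀ ω : Ω, Quotient.mk s ω = c →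
      (Finset.univ.filter (fun ω : Ω => Quotient.mk s ω = c)).card *
        Nat.card (MulAction.stabilizer G ω) = Nat.card G := by
    intro ω hω
    have h2 := MulAction.card_orbit_mul_card_stabilizer_eq_card_group G ω
    have h3 : (Finset.univ.filter (fun ω : Ω => Quotient.mk s ω = c)).card =
        Fintype.card (MulAction.orbit G ω) := by
      rw [← Fintype.card_subtype]
      refine Fintype.card_congr (Equiv.subtypeEquivRight fun a => ?_)
      rw [MulAction.mem_orbit_iff, ← hs, ← hω, eq_comm]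
      exact Quotient.eq (r := s)
    rw [h3, Nat.card_eq_fintype_card, Nat.card_eq_fintype_card]
    exact h2
  have hout : Quotient.mk s c.out = c := Quotient.out_eq c
  have h0 := horb c.out hout
  have hpos : 0 < (Finset.univ.filter (fun ω : Ω => Quotient.mk s ω = c)).card := by
    rw [Finset.card_pos]
    exact ⟨c.out, by simp⟩
  have h4 : ∀ ω ∈ Finset.univ.filter (fun ω : Ω => Quotient.mk s ω = c),
      (Nat.card (MulAction.stabilizer G ω) : ℤ) * f ω =
        (Nat.card (MulAction.stabilizer G c.out) : ℤ) * f c.out := by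
    intro ω hω
    have hω' : Quotient.mk s ω = c := (Finset.mem_filter.mp hω).2
    have h5 := horb ω hω'
    have h6 : Nat.card (MulAction.stabilizer G ω) = Nat.card (MulAction.stabilizer G c.out) :=
      Nat.eq_of_mul_eq_mul_left hpos (h5.trans h0.symm)
    have h7 : f ω = f c.out := by
      apply hf
      have : Quotient.mk s ω = Quotient.mk s c.out := hω'.trans hout.symm
      exact Quotient.eq.mp this
    rw [h6, h7]
  rw [Finset.sum_congr rfl h4, Finset.sum_const, nsmul_eq_mul, ← mul_assoc, ← h0]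
  push_cast
  ring

variable {p : ℕ} {G : Type} [Group G]

lemma conj_mem_conjSub {g : G} {P : Subgroup G} {x : G} (hx : x ∈ P) : g * x * g⁻¹ ∈ conjSub g P :=
  ⟨x, hx, by simp⟩

lemma mem_conjSub {g : G} {P : Subgroup G} {x : G} : x ∈ conjSub g P ↔ g⁻¹ * x * g ∈ P := by
  constructor
  · rintro ⟨y, hy, rfl⟩
    have : g⁻¹ * (MulAut.conj g).toMonoidHom y * g = y := by
      change g⁻¹ * (g * y * g⁻¹) * g = y
      group
    rw [this]
    exact hy
  · intro hx
    have := conj_mem_conjSub (g := g) hx
    have h : g * (g⁻¹ * x * g) * g⁻¹ = x := by group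
    rwa [h] at this

lemma conjSub_eq_iff {g : G} {P : Subgroup G} : conjSub g P = P ↔ g ∈ Subgroup.normalizer (P : Set G) := by
  rw [Subgroup.mem_normalizer_iff]
  constructor
  · intro h x
    constructor
    · intro hx
      have := conj_mem_conjSub (g := g) hx
      rwa [h] at this
    · intro hx
      have hx' : g * x * g⁻¹ ∈ P := hx
      rw [← h, mem_conjSub] at hx'
      have e : g⁻¹ * (g * x * g⁻¹) * g = x := by group
      rwa [e] at hx'
  · intro h
    ext x
    rw [mem_conjSub]
    have := h (g⁻¹ * x * g)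
    have e : g * (g⁻¹ * x * g) * g⁻¹ = x := by group
    constructor
    · intro hx
      have h1 := this.mp hx
      rwa [e] at h1
    · intro hx
      apply this.mpr
      rw [e]
      exact hx

lemma mem_chainStabilizer {σ : Set (Subgroup G)} {g : G} :
    g ∈ chainStabilizer σ ↔ ∀ P ∈ σ, conjSub g P = P := by
  unfold chainStabilizer
  simp only [Subgroup.mem_iInf, conjSub_eq_iff]

lemma conjSub_le {g : G} {P Q : Subgroup G} (h : P ≤ Q) : conjSub g P ≤ conjSub g Q :=
  Subgroup.map_mono h

lemma conjSub_inv_conjSub (g : G) (P : Subgroup G) : conjSub g⁻¹ (conjSub g P) = P := by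
  rw [← conjSub_mul, inv_mul_cancel, conjSub_one]

lemma conjSub_conjSub_inv (g : G) (P : Subgroup G) : conjSub g (conjSub g⁻¹ P) = P := by
  rw [← conjSub_mul, mul_inv_cancel, conjSub_one]

lemma conjSub_injective (g : G) : Function.Injective (conjSub g) := fun P Q h => by
  rw [← conjSub_inv_conjSub g P, h, conjSub_inv_conjSub]

lemma conjSub_ne_bot {g : G} {P : Subgroup G} (h : P ≠ ⊥) : conjSub g P ≠ ⊥ := by
  intro h1
  apply h
  apply conjSub_injective g
  rw [h1]
  ext x
  rw [mem_conjSub, Subgroup.mem_bot, Subgroup.mem_bot]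
  constructor
  · rintro rfl; group
  · intro hx
    have : x = g * (g⁻¹ * x * g) * g⁻¹ := by group
    rw [this, hx]; group

lemma IsPChain.conj {σ : Set (Subgroup G)} (h : IsPChain p σ) (g : G) :
    IsPChain p (conjSub g '' σ) := by
  refine ⟨?_, ?_, ?_⟩
  · rintro _ ⟨P, hP, rfl⟩ _ ⟨Q, hQ, rfl⟩ _
    rcases h.chain.total hP hQ with h1 | h1
    · exact Or.inl (conjSub_le h1)
    · exact Or.inr (conjSub_le h1)
  · rintro _ ⟨P, hP, rfl⟩
    exact (h.isPGroup P hP).map _
  · rintro _ ⟨P, hP, rfl⟩
    exact conjSub_ne_bot (h.ne_bot P hP)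

lemma ncard_conj (σ : Set (Subgroup G)) (g : G) : (conjSub g '' σ).ncard = σ.ncard :=
  Set.ncard_image_of_injective σ (conjSub_injective g)

/-- conjugation maps the stabiliser of a chain to that of the conjugate chain -/
lemma chainStabilizer_conj (σ : Set (Subgroup G)) (g : G) :
    chainStabilizer (conjSub g '' σ) = conjSub g (chainStabilizer σ) := by
  ext x
  rw [mem_conjSub, mem_chainStabilizer, mem_chainStabilizer]
  constructor
  · intro h P hP
    have := h _ ⟨P, hP, rfl⟩
    rw [conjSub_mul, conjSub_mul, this, conjSub_inv_conjSub]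
  · rintro h _ ⟨P, hP, rfl⟩
    have := h P hP
    rw [conjSub_mul, conjSub_mul] at this
    rw [← conjSub_conjSub_inv g (conjSub x (conjSub g P)), this]

/-- a function of subgroups invariant under isomorphisms -/
def IsoInv (f : Subgroup G → ℤ) : Prop := ∀ H K : Subgroup G, Nonempty (H ≃* K) → f H = f K

theorem card_mul_alternatingSum [Finite G] (f : Subgroup G → ℤ) (hf : IsoInv f)
    [Fintype {σ : Set (Subgroup G) // IsPChain p σ}] :
    (Nat.card G : ℤ) * alternatingSum p G f =
      ∑ σ : {σ : Set (Subgroup G) // IsPChain p σ},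
        (-1) ^ σ.1.ncard * ((Nat.card (chainStabilizer σ.1) : ℤ) * f (chainStabilizer σ.1)) := by
  letI : MulAction G {σ : Set (Subgroup G) // IsPChain p σ} :=
    { smul := fun g σ => ⟨conjSub g '' σ.1, σ.2.conj g⟩
      one_smul := fun σ => by
        apply Subtype.ext
        change conjSub (1 : G) '' σ.1 = σ.1
        have : (conjSub (1 : G)) = id := funext conjSub_one
        rw [this, Set.image_id]
      mul_smul := fun g h σ => by
        apply Subtype.ext
        change conjSub (g * h) '' σ.1 = conjSub g '' (conjSub h '' σ.1)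
        rw [← Set.image_comp]
        congr 1
        exact funext fun P => conjSub_mul g h P }
  have hsm : ∀ (g : G) (σ : {σ : Set (Subgroup G) // IsPChain p σ}),
      (g • σ).1 = conjSub g '' σ.1 := fun _ _ => rfl
  have h := orbit_sum (G := G) (chainSetoid p G) (by
    intro σ τ
    change (∃ g : G, τ.1 = conjSub g '' σ.1) ↔ _
    constructor
    · rintro ⟨g, hg⟩
      exact ⟨g, Subtype.ext (by rw [hsm, hg])⟩
    · rintro ⟨g, hg⟩
      exact ⟨g, by rw [← hg, hsm]⟩)
    (fun σ => (-1) ^ σ.1.ncard * f (chainStabilizer σ.1)) (by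
      rintro σ τ ⟨g, hg⟩
      change (-1) ^ σ.1.ncard * f (chainStabilizer σ.1) =
        (-1) ^ τ.1.ncard * f (chainStabilizer τ.1)
      rw [hg, ncard_conj, chainStabilizer_conj]
      congr 1
      apply hf
      exact ⟨Subgroup.equivMapOfInjective _ _ (MulAut.conj g).injective⟩)
  unfold alternatingSum
  rw [h]
  refine Finset.sum_congr rfl fun σ _ => ?_
  have hst : Nat.card (MulAction.stabilizer G σ) = Nat.card (chainStabilizer σ.1) := by
    refine Nat.card_congr (Equiv.subtypeEquivRight fun g => ?_)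
    rw [MulAction.mem_stabilizer_iff, Subtype.ext_iff, hsm, mem_chainStabilizer]
    constructor
    · intro h3 P hP
      have hgP : conjSub g P ∈ σ.1 := by
        rw [← h3]
        exact ⟨P, hP, rfl⟩
      have hcard : Nat.card (conjSub g P) = Nat.card P :=
        Nat.card_congr (Subgroup.equivMapOfInjective _ _ (MulAut.conj g).injective).toEquiv.symm
      rcases σ.2.chain.total hgP hP with h4 | h4
      · exact Subgroup.eq_of_le_of_card_ge h4 hcard.ge
      · exact (Subgroup.eq_of_le_of_card_ge h4 hcard.le).symm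
    · intro h3
      ext P
      constructor
      · rintro ⟨Q, hQ, rfl⟩
        rw [h3 Q hQ]
        exact hQ
      · intro hP
        exact ⟨P, hP, h3 P hP⟩
  rw [hst]
  ring

/-! ### Cancellation -/

/-- the largest member of the chain which does not contain `U` -/
def lower (U : Subgroup G) (σ : Set (Subgroup G)) : Subgroup G := sSup {P ∈ σ | ¬ U ≤ P}

lemma lower_cases [Finite G] {σ : Set (Subgroup G)} (hσ : IsChain (· ≤ ·) σ) (U : Subgroup G) :
    lower U σ = ⊥ ∨ (lower U σ ∈ σ ∧ ¬ U ≤ lower U σ) := by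
  have : Finite (Subgroup G) := inferInstance
  by_cases hne : {P ∈ σ | ¬ U ≤ P}.Nonempty
  · right
    obtain ⟨M, hM⟩ := (Set.toFinite {P ∈ σ | ¬ U ≤ P}).exists_maximal hne
    have hgr : IsGreatest {P ∈ σ | ¬ U ≤ P} M := by
      refine ⟨hM.1, fun P hP => ?_⟩
      rcases hσ.total hP.1 hM.1.1 with h1 | h1
      · exact h1
      · exact hM.2 hP h1
    have : lower U σ = M := hgr.isLUB.sSup_eq
    rw [this]
    exact hM.1
  · left
    rw [Set.not_nonempty_iff_eq_empty] at hne
    rw [lower, hne, sSup_empty]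

/-- the toggled subgroup -/
def toggled (U : Subgroup G) (σ : Set (Subgroup G)) : Subgroup G := lower U σ ⊔ U

/-- insert or remove the toggled subgroup -/
def toggle (U : Subgroup G) (σ : Set (Subgroup G)) : Set (Subgroup G) :=
  if toggled U σ ∈ σ then σ \ {toggled U σ} else insert (toggled U σ) σ

lemma le_toggled (U : Subgroup G) (σ : Set (Subgroup G)) : U ≤ toggled U σ := le_sup_right

lemma lower_toggle (U : Subgroup G) (σ : Set (Subgroup G)) : lower U (toggle U σ) = lower U σ := by
  unfold lower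
  congr 1
  ext P
  unfold toggle
  constructor
  · rintro ⟨h1, h2⟩
    refine ⟨?_, h2⟩
    split_ifs at h1
    · exact h1.1
    · rcases h1 with h1 | h1
      · exact absurd (h1 ▸ le_toggled U σ) h2
      · exact h1
  · rintro ⟨h1, h2⟩
    refine ⟨?_, h2⟩
    have hne : P ≠ toggled U σ := fun h => h2 (h ▸ le_toggled U σ)
    split_ifs
    · exact ⟨h1, hne⟩
    · exact Or.inr h1

lemma toggled_toggle (U : Subgroup G) (σ : Set (Subgroup G)) :
    toggled U (toggle U σ) = toggled U σ := by
  unfold toggled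
  rw [lower_toggle]

lemma toggle_toggle (U : Subgroup G) (σ : Set (Subgroup G)) : toggle U (toggle U σ) = σ := by
  conv_lhs => rw [toggle]
  rw [toggled_toggle]
  by_cases h : toggled U σ ∈ σ
  · have h1 : toggle U σ = σ \ {toggled U σ} := if_pos h
    rw [h1, if_neg (fun h2 => h2.2 rfl), Set.insert_diff_singleton, Set.insert_eq_of_mem h]
  · have h1 : toggle U σ = insert (toggled U σ) σ := if_neg h
    rw [h1, if_pos (Set.mem_insert _ _)]
    ext P
    simp only [Set.mem_diff, Set.mem_insert_iff, Set.mem_singleton_iff]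
    constructor
    · rintro ⟨h2 | h2, h3⟩
      · exact absurd h2 h3
      · exact h2
    · intro h2
      exact ⟨Or.inr h2, fun h3 => h (h3 ▸ h2)⟩

lemma comparable {U : Subgroup G} {σ : Set (Subgroup G)} (hσ : IsChain (· ≤ ·) σ)
    {P : Subgroup G} (hP : P ∈ σ) : P ≤ toggled U σ ∨ toggled U σ ≤ P := by
  by_cases h : U ≤ P
  · right
    refine sup_le (sSup_le ?_) h
    rintro Q ⟨hQ, hUQ⟩
    rcases hσ.total hQ hP with h1 | h1
    · exact h1
    · exact absurd (h.trans h1) hUQ
  · left
    exact (le_sSup (show P ∈ {P ∈ σ | ¬ U ≤ P} from ⟨hP, h⟩)).trans le_sup_left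

/-- the toggled chain is a chain of `p`-subgroups normalised by `K` -/
lemma toggle_mem [Fact p.Prime] [Finite G] {U : Subgroup G} {K : Set G} (hU : IsPGroup p U)
    (hU1 : U ≠ ⊥) (hUK : U ≤ Subgroup.closure K) (hKU : ∀ x ∈ K, conjSub x U = U)
    {σ : Set (Subgroup G)} (hσ : IsPChain p σ) (hK : ∀ P ∈ σ, ∀ x ∈ K, conjSub x P = P) :
    IsPChain p (toggle U σ) ∧ ∀ P ∈ toggle U σ, ∀ x ∈ K, conjSub x P = P := by
  have hL := lower_cases hσ.chain U
  have hLK : ∀ x ∈ K, conjSub x (lower U σ) = lower U σ := by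
    intro x hx
    rcases hL with h | h
    · rw [h]
      ext y
      rw [mem_conjSub, Subgroup.mem_bot, Subgroup.mem_bot]
      constructor
      · intro hy
        have : y = x * (x⁻¹ * y * x) * x⁻¹ := by group
        rw [this, hy]; group
      · rintro rfl; group
    · exact hK _ h.1 x hx
  have hLp : IsPGroup p (lower U σ) := by
    rcases hL with h | h
    · rw [h]; exact IsPGroup.of_bot
    · exact hσ.isPGroup _ h.1
  have hUN : U ≤ Subgroup.normalizer (lower U σ : Set G) := by
    refine hUK.trans ?_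
    rw [Subgroup.closure_le]
    intro x hx
    exact conjSub_eq_iff.mp (hLK x hx)
  have hTp : IsPGroup p (toggled U σ) := IsPGroup.to_sup_of_normal_left' hLp hU hUN
  have hTK : ∀ x ∈ K, conjSub x (toggled U σ) = toggled U σ := by
    intro x hx
    unfold toggled
    have : conjSub x (lower U σ ⊔ U) = conjSub x (lower U σ) ⊔ conjSub x U :=
      Subgroup.map_sup _ _ _
    rw [this, hLK x hx, hKU x hx]
  have hT1 : toggled U σ ≠ ⊥ := fun h => hU1 (le_bot_iff.mp (h ▸ le_toggled U σ))
  by_cases h : toggled U σ ∈ σ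
  · have h1 : toggle U σ = σ \ {toggled U σ} := if_pos h
    rw [h1]
    exact ⟨⟨hσ.chain.mono Set.diff_subset, fun P hP => hσ.isPGroup P hP.1,
      fun P hP => hσ.ne_bot P hP.1⟩, fun P hP => hK P hP.1⟩
  · have h1 : toggle U σ = insert (toggled U σ) σ := if_neg h
    rw [h1]
    refine ⟨⟨?_, ?_, ?_⟩, ?_⟩
    · refine hσ.chain.insert fun P hP _ => ?_
      rcases comparable (U := U) hσ.chain hP with h2 | h2
      · exact Or.inr h2
      · exact Or.inl h2
    · rintro P (rfl | hP)
      · exact hTp
      · exact hσ.isPGroup P hP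
    · rintro P (rfl | hP)
      · exact hT1
      · exact hσ.ne_bot P hP
    · rintro P (rfl | hP)
      · exact hTK
      · exact hK P hP

lemma ncard_toggle [Finite G] (U : Subgroup G) (σ : Set (Subgroup G)) :
    ((-1 : ℤ)) ^ (toggle U σ).ncard = - (-1) ^ σ.ncard := by
  by_cases h : toggled U σ ∈ σ
  · have h1 : toggle U σ = σ \ {toggled U σ} := if_pos h
    have h2 := Set.ncard_diff_singleton_add_one h (Set.toFinite σ)
    rw [h1, ← h2, pow_succ]
    ring
  · have h1 : toggle U σ = insert (toggled U σ) σ := if_neg h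
    rw [h1, Set.ncard_insert_of_notMem h (Set.toFinite σ), pow_succ]
    ring

/-- **Cancellation.** If `K` normalises a nontrivial `p`-subgroup of `⟨K⟩`, the alternating sum of
the chains normalised by `K` vanishes. -/
theorem sum_eq_zero [Fact p.Prime] [Finite G] {U : Subgroup G} {K : Set G} (hU : IsPGroup p U)
    (hU1 : U ≠ ⊥) (hUK : U ≤ Subgroup.closure K) (hKU : ∀ x ∈ K, conjSub x U = U)
    [Fintype {σ : Set (Subgroup G) // IsPChain p σ}] :
    ∑ σ : {σ : Set (Subgroup G) // IsPChain p σ},
      (-1 : ℤ) ^ σ.1.ncard * (if ∀ P ∈ σ.1, ∀ x ∈ K, conjSub x P = P then 1 else 0) = 0 := by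
  have : ∀ σ : {σ : Set (Subgroup G) // IsPChain p σ},
      (-1 : ℤ) ^ σ.1.ncard * (if ∀ P ∈ σ.1, ∀ x ∈ K, conjSub x P = P then 1 else 0) =
      if ∀ P ∈ σ.1, ∀ x ∈ K, conjSub x P = P then (-1 : ℤ) ^ σ.1.ncard else 0 := by
    intro σ
    split_ifs <;> simp
  simp only [this]
  rw [← Finset.sum_filter]
  refine Finset.sum_involution
    (fun σ hσ => ⟨toggle U σ.1, (toggle_mem hU hU1 hUK hKU σ.2 (Finset.mem_filter.mp hσ).2).1⟩)
    ?_ ?_ ?_ ?_
  · intro σ hσ
    change (-1 : ℤ) ^ σ.1.ncard + (-1) ^ (toggle U σ.1).ncard = 0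
    rw [ncard_toggle]
    ring
  · intro σ hσ _ h
    have h1 : toggle U σ.1 = σ.1 := congrArg Subtype.val h
    have h2 := ncard_toggle U σ.1
    rw [h1] at h2
    have h3 : ((-1 : ℤ)) ^ σ.1.ncard ≠ 0 := pow_ne_zero _ (by norm_num)
    omega
  · intro σ hσ
    rw [Finset.mem_filter]
    exact ⟨Finset.mem_univ _, (toggle_mem hU hU1 hUK hKU σ.2 (Finset.mem_filter.mp hσ).2).2⟩
  · intro σ hσ
    apply Subtype.ext
    exact toggle_toggle U σ.1

end Pool.Agent.Y63.KR
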