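import Pool.Agent.Y63.KR.Limit

/-!
# The equivariant Euler characteristics of surface groups
-/

open scoped BigOperators Classical
open Pool.Agent.Helper884.IC Pool.Agent.Y63.AWC

set_option linter.unusedSectionVars false

noncomputable section

namespace Pool.Agent.Y63.KR

/-- The set of the coordinates `a_i`, `b_i` of a tuple. -/
def coords {g : ℕ} {G : Type} (q : Fin g → G × G) : Set G :=
  Set.range (fun i => (q i).1) ∪ Set.range (fun i => (q i).2)

/-- The reduced equivariant Euler characteristic of the poset of nontrivial `p`-subgroups of `G` for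
the fundamental group `Π_g` of the closed orientable surface of genus `g`:
`|G|⁻¹ ∑_φ (χ(X^φ(Π_g)) - 1)`, where `φ` runs over the homomorphisms `Π_g → G`. -/
def surfaceChi (p g : ℕ) (G : Type) [Group G] : ℚ :=
  (∑ᶠ q : {q : Fin g → G × G // surfaceWord q = 1},
    ((eulerChar (fixedPoset p (coords q.1)) : ℚ) - 1)) / (Nat.card G : ℚ)

/-- `|Hom(Π_g, G)| / |G|` -/
def surfaceCount (g : ℕ) (G : Type) [Group G] : ℕ := numHom g G / Nat.card G

section

variable {p : ℕ} [hp : Fact p.Prime] {G : Type} [Group G]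

lemma surfaceCount_eq [Fintype G] (n : ℕ) : surfaceCount (n + 1) G = zsum n G := by
  unfold surfaceCount
  rw [numHom_zsum]
  exact Nat.mul_div_cancel_left _ Nat.card_pos

lemma card_mul_surfaceCount [Finite G] (n : ℕ) :
    Nat.card G * surfaceCount (n + 1) G = numHom (n + 1) G := by
  have : Fintype G := Fintype.ofFinite G
  rw [surfaceCount_eq, numHom_zsum]

lemma map_surfaceWord {H K : Type} [Group H] [Group K] (f : H →* K) {g : ℕ} (q : Fin g → H × H) :
    f (surfaceWord q) = surfaceWord fun i => (f (q i).1, f (q i).2) := by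
  unfold surfaceWord
  rw [map_list_prod, List.map_ofFn]
  congr 2
  funext i
  simp

lemma numHom_congr {H K : Type} [Group H] [Group K] (e : H ≃* K) (g : ℕ) :
    numHom g H = numHom g K := by
  refine Nat.card_congr (Equiv.subtypeEquiv (Equiv.piCongrRight fun _ =>
    Equiv.prodCongr e.toEquiv e.toEquiv) fun q => ?_)
  have h1 := map_surfaceWord e.toMonoidHom q
  have h2 : surfaceWord ((Equiv.piCongrRight fun _ : Fin g =>
    Equiv.prodCongr e.toEquiv e.toEquiv) q) = e (surfaceWord q) := h1.symm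
  rw [h2]
  constructor
  · intro h
    rw [h, map_one]
  · intro h
    exact e.injective (by rw [h, map_one])

lemma surfaceCount_congr {H K : Type} [Group H] [Group K] (e : H ≃* K) (g : ℕ) :
    surfaceCount g H = surfaceCount g K := by
  unfold surfaceCount
  rw [numHom_congr e, Nat.card_congr e.toEquiv]

theorem card_mul_sum [Finite G] (n : ℕ)
    [Fintype {q : Fin (n + 1) → G × G // surfaceWord q = 1}] :
    (Nat.card G : ℤ) * alternatingSum p G (fun H => (surfaceCount (n + 1) H : ℤ)) =
      ∑ q : {q : Fin (n + 1) → G × G // surfaceWord q = 1}, W p (coords q.1) := by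
  refine main_count (fun H => (surfaceCount (n + 1) H : ℤ)) ?_
    (fun q : {q : Fin (n + 1) → G × G // surfaceWord q = 1} => coords q.1) ?_
  · rintro H K ⟨e⟩
    change (surfaceCount (n + 1) H : ℤ) = (surfaceCount (n + 1) K : ℤ)
    rw [surfaceCount_congr e]
  · intro H
    have h1 := card_mul_surfaceCount (G := H) n
    rw [← Nat.cast_mul, h1]
    norm_cast
    refine Nat.card_congr
      { toFun := fun q => ⟨⟨fun i => ((q.1 i).1, (q.1 i).2), ?_⟩, ?_⟩
        invFun := fun t => ⟨fun i => (⟨(t.1.1 i).1, t.2 (Or.inl ⟨i, rfl⟩)⟩,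
          ⟨(t.1.1 i).2, t.2 (Or.inr ⟨i, rfl⟩)⟩), ?_⟩
        left_inv := fun q => rfl
        right_inv := fun t => rfl }
    · have h2 := map_surfaceWord H.subtype q.1
      rw [q.2, map_one] at h2
      exact h2.symm
    · rintro z (⟨i, rfl⟩ | ⟨i, rfl⟩)
      · exact (q.1 i).1.2
      · exact (q.1 i).2.2
    · apply H.subtype_injective
      rw [map_surfaceWord, map_one]
      exact t.1.2

/-- **The equivariant Euler characteristic as an alternating sum.** -/
theorem surfaceChi_eq [Finite G] (n : ℕ) :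
    surfaceChi p (n + 1) G =
      - ((alternatingSum p G (fun H => (surfaceCount (n + 1) H : ℤ)) : ℤ) : ℚ) := by
  have : Fintype {q : Fin (n + 1) → G × G // surfaceWord q = 1} := Fintype.ofFinite _
  have h0 : (Nat.card G : ℚ) ≠ 0 := by exact_mod_cast Nat.card_pos.ne'
  have h1 := congrArg (Int.cast : ℤ → ℚ) (card_mul_sum (p := p) (G := G) n)
  unfold surfaceChi
  rw [finsum_eq_sum_of_fintype]
  simp only [W_eq] at h1
  push_cast at h1
  rw [div_eq_iff h0]
  have h2 : ∑ q : {q : Fin (n + 1) → G × G // surfaceWord q = 1},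
      ((eulerChar (fixedPoset p (coords q.1)) : ℚ) - 1) =
      - ∑ q : {q : Fin (n + 1) → G × G // surfaceWord q = 1},
        (1 - (eulerChar (fixedPoset p (coords q.1)) : ℚ)) := by
    rw [← Finset.sum_neg_distrib]
    refine Finset.sum_congr rfl fun q _ => ?_
    ring
  rw [h2, ← h1]
  ring

/-! ### Chains with at least one member -/

lemma exists_least [Finite G] {σ : Set (Subgroup G)} (hσ : IsChain (· ≤ ·) σ) (hne : σ.Nonempty) :
    ∃ P ∈ σ, ∀ Q ∈ σ, P ≤ Q := by
  have : Finite (Subgroup G) := inferInstance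
  obtain ⟨P, hP⟩ := (Set.toFinite σ).exists_minimal hne
  refine ⟨P, hP.1, fun Q hQ => ?_⟩
  rcases hσ.total hP.1 hQ with h | h
  · exact h
  · exact hP.2 hQ h

lemma defectZero_chain [Finite G] {σ : Set (Subgroup G)} (hσ : IsPChain p σ) (hne : σ.Nonempty) :
    numDefectZero p (chainStabilizer σ) = 0 := by
  obtain ⟨P, hP, hmin⟩ := exists_least hσ.chain hne
  have hle : P ≤ chainStabilizer σ := by
    intro x hx
    rw [mem_chainStabilizer]
    intro Q hQ
    rw [conjSub_eq_iff]
    exact Subgroup.le_normalizer (hmin Q hQ hx)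
  have : Fintype (chainStabilizer σ) := Fintype.ofFinite _
  refine defectZero_normal (P := P.subgroupOf (chainStabilizer σ)) ?_ ?_ ?_
  · exact (hσ.isPGroup P hP).comap_subtype
  · constructor
    intro x hx y
    rw [Subgroup.mem_subgroupOf] at hx ⊢
    have h1 : conjSub (y : G) P = P := mem_chainStabilizer.mp y.2 P hP
    have h2 := conj_mem_conjSub (g := (y : G)) hx
    rw [h1] at h2
    exact h2
  · intro h1
    apply hσ.ne_bot P hP
    rw [Subgroup.subgroupOf_eq_bot] at h1
    rw [eq_bot_iff]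
    intro x hx
    exact (disjoint_iff.mp h1).le ⟨hx, hle hx⟩

/-- if only the empty chain contributes, the alternating sum is the value at `G` -/
lemma alternatingSum_single [Finite G] (f : Subgroup G → ℤ)
    (hf : ∀ σ : Set (Subgroup G), IsPChain p σ → σ.Nonempty → f (chainStabilizer σ) = 0) :
    alternatingSum p G f = f ⊤ := by
  unfold alternatingSum
  have he : IsPChain p (∅ : Set (Subgroup G)) :=
    ⟨Set.Subsingleton.isChain (by simp), by simp, by simp⟩
  let c0 : Quotient (chainSetoid p G) := Quotient.mk _ ⟨∅, he⟩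
  have hout : ∀ c : Quotient (chainSetoid p G), c.out.1 = ∅ ↔ c = c0 := by
    intro c
    constructor
    · intro h
      rw [← Quotient.out_eq c]
      apply Quotient.sound
      exact ⟨1, by rw [h, Set.image_empty]⟩
    · rintro rfl
      have h1 : (chainSetoid p G).r c0.out ⟨∅, he⟩ := Quotient.exact (Quotient.out_eq c0)
      obtain ⟨g, hg⟩ := h1
      exact (Set.image_eq_empty.mp hg.symm)
  have hst : chainStabilizer (∅ : Set (Subgroup G)) = ⊤ := by
    ext x
    rw [mem_chainStabilizer]
    simp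
  rw [finsum_eq_single _ c0]
  · rw [(hout c0).mpr rfl, hst]
    simp
  · intro c hc
    have h1 : c.out.1.Nonempty := by
      rw [Set.nonempty_iff_ne_empty]
      exact fun h => hc ((hout c).mp h)
    rw [hf _ c.out.2 h1, mul_zero]

lemma alternatingSum_dvd [Finite G] {M : ℤ} (f f' : Subgroup G → ℤ)
    (h : ∀ σ : Set (Subgroup G), IsPChain p σ → M ∣ f (chainStabilizer σ) - f' (chainStabilizer σ)) :
    M ∣ alternatingSum p G f - alternatingSum p G f' := by
  rw [← alternatingSum_sub]
  unfold alternatingSum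
  have : Fintype (Quotient (chainSetoid p G)) := Fintype.ofFinite _
  rw [finsum_eq_sum_of_fintype]
  exact Finset.dvd_sum fun c _ => Dvd.dvd.mul_left (h _ c.out.2) _

lemma zsum0_eq_zero [Fintype G] (h : numDefectZero p G = 0) (n : ℕ) : zsum0 p n G = 0 := by
  rw [numDefectZero_eq_card, Finset.card_eq_zero] at h
  unfold zsum0
  rw [h, Finset.sum_empty]

/-- only the empty chain matters modulo `p^(2n)` -/
theorem alternatingSum_mod [Finite G] (n : ℕ) :
    (p : ℤ) ^ (2 * n) ∣ alternatingSum p G (fun H => (surfaceCount (n + 1) H : ℤ)) -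
      (surfaceCount (n + 1) G : ℤ) := by
  let f' : Subgroup G → ℤ := fun H => if H = ⊤ ∧ ¬ ∃ σ : Set (Subgroup G), IsPChain p σ ∧
    σ.Nonempty ∧ chainStabilizer σ = H then (surfaceCount (n + 1) H : ℤ) else 0
  have hdiv : ∀ σ : Set (Subgroup G), IsPChain p σ → σ.Nonempty →
      (p : ℤ) ^ (2 * n) ∣ (surfaceCount (n + 1) (chainStabilizer σ) : ℤ) := by
    intro σ hσ hne
    have : Fintype (chainStabilizer σ) := Fintype.ofFinite _
    have h1 := zsum_mod (p := p) (G := chainStabilizer σ) n
    rw [zsum0_eq_zero (defectZero_chain hσ hne), ← surfaceCount_eq] at h1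
    exact_mod_cast (Nat.modEq_zero_iff_dvd).mp h1
  have hst : chainStabilizer (∅ : Set (Subgroup G)) = ⊤ := by
    ext x
    rw [mem_chainStabilizer]
    simp
  have htop : (surfaceCount (n + 1) (⊤ : Subgroup G) : ℤ) = (surfaceCount (n + 1) G : ℤ) := by
    rw [surfaceCount_congr (Subgroup.topEquiv : (⊤ : Subgroup G) ≃* G)]
  have h1 : (p : ℤ) ^ (2 * n) ∣ alternatingSum p G (fun H => (surfaceCount (n + 1) H : ℤ)) -
      alternatingSum p G f' := by
    refine alternatingSum_dvd _ _ fun σ hσ => ?_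
    by_cases hne : σ.Nonempty
    · have : f' (chainStabilizer σ) = 0 := if_neg (fun h => h.2 ⟨σ, hσ, hne, rfl⟩)
      rw [this, sub_zero]
      exact hdiv σ hσ hne
    · rw [Set.not_nonempty_iff_eq_empty] at hne
      subst hne
      rw [hst]
      by_cases h2 : ∃ σ : Set (Subgroup G), IsPChain p σ ∧ σ.Nonempty ∧ chainStabilizer σ = ⊤
      · have : f' ⊤ = 0 := if_neg (fun h => h.2 h2)
        rw [this, sub_zero]
        obtain ⟨σ, h3, h4, h5⟩ := h2
        have := hdiv σ h3 h4
        rwa [h5] at this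
      · have : f' ⊤ = (surfaceCount (n + 1) (⊤ : Subgroup G) : ℤ) := if_pos ⟨rfl, h2⟩
        rw [this, sub_self]
        exact dvd_zero _
  have h2 : alternatingSum p G f' = f' ⊤ :=
    alternatingSum_single f' fun σ hσ hne => if_neg (fun h => h.2 ⟨σ, hσ, hne, rfl⟩)
  have h3 : (p : ℤ) ^ (2 * n) ∣ f' ⊤ - (surfaceCount (n + 1) G : ℤ) := by
    by_cases h2 : ∃ σ : Set (Subgroup G), IsPChain p σ ∧ σ.Nonempty ∧ chainStabilizer σ = ⊤
    · have : f' ⊤ = 0 := if_neg (fun h => h.2 h2)
      rw [this, zero_sub, dvd_neg, ← htop]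
      obtain ⟨σ, h3, h4, h5⟩ := h2
      have := hdiv σ h3 h4
      rwa [h5] at this
    · have : f' ⊤ = (surfaceCount (n + 1) (⊤ : Subgroup G) : ℤ) := if_pos ⟨rfl, h2⟩
      rw [this, htop, sub_self]
      exact dvd_zero _
  rw [h2] at h1
  have := dvd_add h1 h3
  rwa [sub_add_sub_cancel] at this

theorem surfaceCount_mod [Finite G] {N n : ℕ} (hn0 : n ≠ 0) (hn : p ^ N * (p - 1) ∣ n) :
    (p : ℤ) ^ (N + 1) ∣ (surfaceCount (n + 1) G : ℤ) - (numDefectZero p G : ℤ) := by
  have : Fintype G := Fintype.ofFinite G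
  have h := zsum_mod_defectZero (p := p) (G := G) hn0 hn
  rw [← surfaceCount_eq] at h
  have h2 := (Nat.modEq_iff_dvd.mp h.symm)
  push_cast at h2
  exact h2

/-- **The main congruence.** -/
theorem alternatingSum_mod' [Finite G] {N n : ℕ} (hn0 : n ≠ 0) (hn : p ^ N * (p - 1) ∣ n) :
    (p : ℤ) ^ (N + 1) ∣ alternatingSum p G (fun H => (surfaceCount (n + 1) H : ℤ)) -
      (numDefectZero p G : ℤ) := by
  have h1 : (p : ℤ) ^ (N + 1) ∣ alternatingSum p G (fun H => (surfaceCount (n + 1) H : ℤ)) -
      (surfaceCount (n + 1) G : ℤ) :=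
    (pow_dvd_pow _ (two_mul_ge (p := p) hn0 hn)).trans (alternatingSum_mod n)
  have := dvd_add h1 (surfaceCount_mod (G := G) hn0 hn)
  rwa [sub_add_sub_cancel] at this

lemma surfaceCount_one [Finite G] : surfaceCount 1 G = Nat.card (ConjClasses G) := by
  have h1 := card_mul_surfaceCount (G := G) 0
  have h2 : numHom 1 G = Nat.card {q : G × G // Commute q.1 q.2} := by
    refine Nat.card_congr (Equiv.subtypeEquiv (Equiv.funUnique (Fin 1) (G × G)) fun q => ?_)
    unfold surfaceWord
    simp only [List.ofFn_succ, List.ofFn_zero, List.prod_cons, List.prod_nil, mul_one]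
    change (q 0).1 * (q 0).2 * (q 0).1⁻¹ * (q 0).2⁻¹ = 1 ↔ (q 0).1 * (q 0).2 = (q 0).2 * (q 0).1
    rw [mul_inv_eq_one, mul_inv_eq_iff_eq_mul]
  have h3 := card_comm_eq_card_conjClasses_mul_card G
  rw [← h2, ← h1, mul_comm] at h3
  exact Nat.eq_of_mul_eq_mul_right Nat.card_pos h3

theorem sum_surfaceCount_one [Finite G] :
    alternatingSum p G (fun H => (surfaceCount 1 H : ℤ)) =
      alternatingSum p G (fun H => (Nat.card (ConjClasses H) : ℤ)) := by
  congr 1
  funext H
  rw [surfaceCount_one]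

/-- **Continuity.** -/
theorem continuity_iff [Finite G] :
    alternatingSum p G (fun H => (Nat.card (ConjClasses H) : ℤ)) = (numDefectZero p G : ℤ) ↔
      ∀ N : ℕ, ∃ M : ℕ, ∀ g : ℕ, 2 ≤ g → p ^ M * (p - 1) ∣ g - 1 →
        ∃ c : ℤ, surfaceChi p g G - surfaceChi p 1 G = (p : ℚ) ^ N * c := by
  have hp1 : (1 : ℤ) < p := by exact_mod_cast hp.out.one_lt
  have hp2 := hp.out.two_le
  have h1 := surfaceChi_eq (p := p) (G := G) 0
  rw [sum_surfaceCount_one] at h1
  constructor
  · intro h N
    refine ⟨N, fun g hg hd => ?_⟩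
    obtain ⟨n, rfl⟩ : ∃ n, g = n + 1 := ⟨g - 1, by omega⟩
    have hn0 : n ≠ 0 := by omega
    rw [Nat.add_sub_cancel] at hd
    obtain ⟨c, hc⟩ := alternatingSum_mod' (p := p) (G := G) hn0 hd
    refine ⟨-(p * c), ?_⟩
    rw [h1, surfaceChi_eq, h]
    have h2 := congrArg (Int.cast : ℤ → ℚ) hc
    push_cast at h2 ⊢
    have h3 : ((p : ℚ)) ^ (N + 1) * c = p ^ N * (p * c) := by ring
    rw [h3] at h2
    linarith
  · intro h
    by_contra hne
    set D : ℤ := alternatingSum p G (fun H => (Nat.card (ConjClasses H) : ℤ)) -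
      (numDefectZero p G : ℤ) with hD
    have hD0 : D ≠ 0 := sub_ne_zero.mpr hne
    obtain ⟨N, hN⟩ : ∃ N : ℕ, |D| < (p : ℤ) ^ N := by
      refine ⟨D.natAbs, ?_⟩
      rw [Int.abs_eq_natAbs]
      exact_mod_cast Nat.lt_pow_self hp.out.one_lt
    obtain ⟨M, hM⟩ := h N
    set K := max M N with hK
    set n := p ^ K * (p - 1) with hn
    have hn0 : n ≠ 0 := by
      have : 0 < p ^ K := pow_pos hp.out.pos _
      have : 0 < p - 1 := by omega
      positivity
    obtain ⟨c, hc⟩ := hM (n + 1) (by omega) (by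
      rw [Nat.add_sub_cancel, hn]
      exact Nat.mul_dvd_mul_right (pow_dvd_pow p (le_max_left M N)) _)
    have h2 := alternatingSum_mod' (p := p) (G := G) hn0 (dvd_refl n)
    rw [surfaceChi_eq, h1] at hc
    have h3 : alternatingSum p G (fun H => (Nat.card (ConjClasses H) : ℤ)) -
        alternatingSum p G (fun H => (surfaceCount (n + 1) H : ℤ)) = (p : ℤ) ^ N * c := by
      have : (((alternatingSum p G (fun H => (Nat.card (ConjClasses H) : ℤ)) -
        alternatingSum p G (fun H => (surfaceCount (n + 1) H : ℤ)) : ℤ)) : ℚ) =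
          (((p : ℤ) ^ N * c : ℤ) : ℚ) := by
        push_cast
        linarith
      exact_mod_cast this
    have h4 : (p : ℤ) ^ N ∣ D := by
      have h5 : (p : ℤ) ^ N ∣ alternatingSum p G (fun H => (surfaceCount (n + 1) H : ℤ)) -
          (numDefectZero p G : ℤ) :=
        (pow_dvd_pow _ (by have := le_max_right M N; omega)).trans h2
      have h6 : (p : ℤ) ^ N ∣ alternatingSum p G (fun H => (Nat.card (ConjClasses H) : ℤ)) -
        alternatingSum p G (fun H => (surfaceCount (n + 1) H : ℤ)) := ⟨c, h3⟩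
      have := dvd_add h6 h5
      rwa [sub_add_sub_cancel] at this
    exact absurd (Int.eq_zero_of_abs_lt_dvd h4 hN) hD0

end

end Pool.Agent.Y63.KR
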