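import Pool.Agent.Y63.KR.Pairs
import Pool.Agent.Y63.AWC.Defs

/-!
# Rationality levels
-/

open scoped Classical BigOperators

set_option linter.unusedSectionVars false
set_option linter.style.haveILetI false

noncomputable section

namespace Pool.Agent.Y63.KR

/-- `x` is `p^a`-rational: `x` is conjugate to all powers `x^s` with `s` prime to `p`, `s ≡ 1`
modulo `p^a` and `s ≡ 1` modulo the `p'`-part of the order of `x`. -/
def IsRational (p a : ℕ) {H : Type} [Group H] (x : H) : Prop :=
  ∀ s : ℕ, ¬ p ∣ s → s ≡ 1 [MOD p ^ a] →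
    s ≡ 1 [MOD orderOf x / p ^ (orderOf x).factorization p] → IsConj x (x ^ s)

/-- The number of conjugacy classes of `p^a`-rational elements. -/
def numRational (p a : ℕ) (H : Type) [Group H] : ℕ :=
  Nat.card {c : ConjClasses H // ∃ x : H, ConjClasses.mk x = c ∧ IsRational p a x}

/-- The number of conjugacy classes of elements of `p`-rationality level `a ≥ 1`: the elements are
`p^a`-rational and not `p^(a-1)`-rational. -/
def numLevel (p a : ℕ) (H : Type) [Group H] : ℕ :=
  Nat.card {c : ConjClasses H // ∃ x : H, ConjClasses.mk x = c ∧ IsRational p a x ∧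
    ¬ IsRational p (a - 1) x}

/-- The equivariant Euler characteristic `χ₂` of the poset of nontrivial `p`-subgroups:
`|G|⁻¹ ∑ χ(X^⟨x, y⟩)` over the commuting pairs `(x, y)`. -/
def chi2 (p : ℕ) (G : Type) [Group G] : ℚ :=
  (∑ᶠ q : {q : G × G // q.1 * q.2 = q.2 * q.1},
    (eulerChar (fixedPoset p ({q.1.1, q.1.2} : Set G)) : ℚ)) / (Nat.card G : ℚ)

/-- The Knörr–Robinson conjecture for `G` at `p`: `χ₂ = k(G) - z_p(G)`. -/
def KRC (p : ℕ) (G : Type) [Group G] : Prop :=
  chi2 p G = (Nat.card (ConjClasses G) : ℚ) - (Pool.Agent.Y63.AWC.numDefectZero p G : ℚ)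

section

variable {p : ℕ} {G : Type} [Group G]

lemma isoInv_numR (s : ℕ) [Finite G] (R : ∀ H : Subgroup G, H → Prop)
    (hR : ∀ H : Subgroup G, ∀ x y : H, IsConj x y → (R H x ↔ R H y))
    (hRS : ∀ (H K : Subgroup G) (e : H ≃* K) (x : H), R H x ↔ R K (e x)) :
    IsoInv (G := G) (fun H => (numR s H (R H) : ℤ)) := by
  rintro H K ⟨e⟩
  change (numR s H (R H) : ℤ) = (numR s K (R K) : ℤ)
  rw [numR_congr s e (R H) (R K) (hR H) (hRS H K e)]

/-- the alternating sum of the numbers of fixed classes by pairs, `R` a property of the order -/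
theorem sum_numR [Fact p.Prime] [Finite G] (s : ℕ) (R : ℕ → Prop) [Fintype (TwPair s G)] :
    (Nat.card G : ℤ) * alternatingSum p G (fun H => (numR s H (fun x => R (orderOf x)) : ℤ)) =
      ∑ q : TwPair s G, W p ({q.1.1, q.1.2} : Set G) * bz (R (orderOf q.1.1)) := by
  have hR : ∀ H : Subgroup G, ∀ x y : H, IsConj x y → (R (orderOf x) ↔ R (orderOf y)) := by
    intro H x y h
    obtain ⟨c, rfl⟩ := isConj_iff.mp h
    have : orderOf (c * x * c⁻¹) = orderOf x := by
      have h1 := orderOf_injective (MulAut.conj c).toMonoidHom (MulAut.conj c).injective x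
      simpa using h1
    rw [this]
  have : Fintype {q : TwPair s G // R (orderOf q.1.1)} := Fintype.ofFinite _
  rw [main_count (fun H => (numR s H (fun x => R (orderOf x)) : ℤ))
    (isoInv_numR s (fun H x => R (orderOf x)) hR (fun H K e x => by
      rw [MulEquiv.orderOf_eq])) (T := {q : TwPair s G // R (orderOf q.1.1)})
      (fun q => {q.1.1.1, q.1.1.2})]
  · have h1 : ∀ q : TwPair s G, W p ({q.1.1, q.1.2} : Set G) * bz (R (orderOf q.1.1)) =
        if R (orderOf q.1.1) then W p ({q.1.1, q.1.2} : Set G) else 0 := by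
      intro q
      unfold bz
      split_ifs <;> simp
    simp only [h1]
    rw [← Finset.sum_filter]
    symm
    exact Finset.sum_subtype (p := fun q : TwPair s G => R (orderOf q.1.1)) _ (by simp)
      (fun q : TwPair s G => W p ({q.1.1, q.1.2} : Set G))
  · intro H
    have h2 := card_mul_numR s H (fun x => R (orderOf x)) (hR H)
    have h3 : ((Nat.card H * numR s H (fun x => R (orderOf x)) : ℕ) : ℤ) =
        ((Nat.card {q : H × H // q.2 * q.1 * q.2⁻¹ = q.1 ^ s ∧ R (orderOf q.1)} : ℕ) : ℤ) := by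
      rw [h2]
    push_cast at h3
    rw [h3]
    norm_cast
    refine Nat.card_congr ?_
    exact
      { toFun := fun q => ⟨⟨⟨(q.1.1, q.1.2), by
            have := q.2.1
            have h4 := congrArg (Subgroup.subtype H) this
            simpa using h4⟩, by
            have := q.2.2
            simpa using this⟩, by
            rintro z (hz | hz)
            · change z = (q.1.1 : G) at hz
              rw [hz]; exact q.1.1.2
            · have hz' : z = (q.1.2 : G) := hz
              rw [hz']; exact q.1.2.2⟩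
        invFun := fun t => ⟨(⟨t.1.1.1.1, t.2 (by simp)⟩, ⟨t.1.1.1.2, t.2 (by simp)⟩), by
            constructor
            · apply Subtype.ext
              exact t.1.1.2
            · have := t.1.2
              simpa [Subgroup.orderOf_mk] using this⟩
        left_inv := fun q => rfl
        right_inv := fun t => rfl }

lemma numFixed_eq (s : ℕ) (H : Type) [Group H] : numFixed s H = numR s H (fun _ => True) := by
  unfold numFixed numR
  simp

/-- **Galois form of the theorem of Knörr and Robinson.** -/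
theorem galois [Fact p.Prime] [Finite G] (s : ℕ) :
    alternatingSum p G (fun H => (numFixed s H : ℤ)) =
      alternatingSum p G (fun H => (numFixedRegular p s H : ℤ)) := by
  have : Fintype (TwPair s G) := Fintype.ofFinite _
  have h1 := sum_numR (p := p) (G := G) s (fun _ => True)
  have h2 := sum_numR (p := p) (G := G) s (fun n => ¬ p ∣ n)
  have h3 : ∑ q : TwPair s G, W p ({q.1.1, q.1.2} : Set G) * bz True =
      ∑ q : TwPair s G, W p ({q.1.1, q.1.2} : Set G) * bz (¬ p ∣ orderOf q.1.1) := by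
    refine Finset.sum_congr rfl fun q _ => ?_
    by_cases h : p ∣ orderOf q.1.1
    · rw [W_eq_zero q.2 h, zero_mul, zero_mul]
    · rw [bz_pos trivial, bz_pos h]
  rw [h3, ← h2] at h1
  have h4 : (Nat.card G : ℤ) ≠ 0 := by exact_mod_cast Nat.card_pos.ne'
  have h5 := mul_left_cancel₀ h4 h1
  have e1 : (fun H : Subgroup G => (numFixed s H : ℤ)) =
      fun H : Subgroup G => (numR s H (fun _ => True) : ℤ) :=
    funext fun H => by rw [numFixed_eq]
  rw [e1, h5]
  rfl

/-! ### Powers -/

lemma gen_one (hp : p.Prime) {a : ℕ} (ha1 : 1 ≤ a) (ha : p = 2 → 2 ≤ a) (n c : ℕ) :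
    ∃ j : ℕ, ((1 + p ^ a * c : ℕ) : ZMod (p ^ (n + a))) = ((1 + p ^ a : ℕ) : ZMod (p ^ (n + a))) ^ j := by
  have hpn : NeZero (p ^ (n + a)) := ⟨(pow_pos hp.pos _).ne'⟩
  let A : Finset (ZMod (p ^ (n + a))) :=
    (Finset.range (p ^ n)).image fun j : ℕ => ((1 + p ^ a * j : ℕ) : ZMod (p ^ (n + a)))
  let P : Finset (ZMod (p ^ (n + a))) :=
    (Finset.range (p ^ n)).image fun j : ℕ => ((1 + p ^ a : ℕ) : ZMod (p ^ (n + a))) ^ j
  have hmem : ∀ c : ℕ, ((1 + p ^ a * c : ℕ) : ZMod (p ^ (n + a))) ∈ A := by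
    intro c
    refine Finset.mem_image.mpr ⟨c % p ^ n, Finset.mem_range.mpr (Nat.mod_lt _ (pow_pos hp.pos _)), ?_⟩
    rw [ZMod.natCast_eq_natCast_iff]
    refine Nat.ModEq.add_left 1 ?_
    have h1 : c % p ^ n ≡ c [MOD p ^ n] := Nat.mod_modEq _ _
    have h2 := h1.mul_left' (p ^ a)
    rwa [← pow_add, add_comm a n] at h2
  have hord : orderOf ((1 + p ^ a : ℕ) : ZMod (p ^ (n + a))) = p ^ n := by
    have h := ZMod.orderOf_one_add_mul_prime_pow hp a (by omega) (by
      rcases hp.eq_two_or_odd with h2 | h2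
      · have := ha h2
        subst h2
        omega
      · have h3 : 3 ≤ p := by
          have := hp.two_le
          omega
        nlinarith) 1 (by
        intro H
        apply hp.ne_one
        simpa using Int.eq_one_of_dvd_one (Int.natCast_nonneg p) H) n
    have e : ((1 + p ^ a : ℕ) : ZMod (p ^ (n + a))) = 1 + (p : ZMod (p ^ (n + a))) ^ a * ((1 : ℤ) : ZMod (p ^ (n + a))) := by
      push_cast
      ring
    rw [e]
    exact h
  have hPA : P ⊆ A := by
    intro x hx
    obtain ⟨j, -, rfl⟩ := Finset.mem_image.mp hx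
    have h1 : ∃ c, (1 + p ^ a) ^ j = 1 + p ^ a * c := by
      have h2 : (1 + p ^ a) ^ j ≡ 1 [MOD p ^ a] := by
        have h3 : 1 + p ^ a ≡ 1 [MOD p ^ a] := by
          simp [Nat.ModEq]
        simpa using h3.pow j
      have h4 : 1 ≤ (1 + p ^ a) ^ j := Nat.one_le_pow _ _ (by positivity)
      obtain ⟨c, hc⟩ := (Nat.modEq_iff_dvd' h4).mp h2.symm
      exact ⟨c, by omega⟩
    obtain ⟨c, hc⟩ := h1
    have := hmem c
    rw [← hc] at this
    push_cast at this ⊢
    exact this
  have hcP : P.card = p ^ n := by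
    rw [Finset.card_image_of_injOn, Finset.card_range]
    intro i hi j hj hij
    have hi' : i < p ^ n := by simpa using hi
    have hj' : j < p ^ n := by simpa using hj
    have := pow_injOn_Iio_orderOf (x := ((1 + p ^ a : ℕ) : ZMod (p ^ (n + a))))
    rw [hord] at this
    exact this hi' hj' hij
  have hcA : A.card ≤ p ^ n := by
    refine Finset.card_image_le.trans ?_
    rw [Finset.card_range]
  have hAP : P = A := Finset.eq_of_subset_of_card_le hPA (by rw [hcP]; exact hcA)
  have h5 := hmem c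
  rw [← hAP] at h5
  obtain ⟨j, -, hj⟩ := Finset.mem_image.mp h5
  exact ⟨j, hj.symm⟩

/-- one exponent which generates all exponents `≡ 1` modulo `p^a` -/
lemma exists_exponent [Fact p.Prime] {a : ℕ} (ha : p = 2 → 2 ≤ a) (n m : ℕ) (hm : ¬ p ∣ m) :
    ∃ t : ℕ, ¬ p ∣ t ∧ t ≡ 1 [MOD p ^ a] ∧ t ≡ 1 [MOD m] ∧
      ∀ s : ℕ, ¬ p ∣ s → s ≡ 1 [MOD p ^ a] → ∃ j : ℕ, s ≡ t ^ j [MOD p ^ n] := by
  have hp : p.Prime := Fact.out
  have key : ∃ u : ℕ, ¬ p ∣ u ∧ u ≡ 1 [MOD p ^ a] ∧
      ∀ s : ℕ, ¬ p ∣ s → s ≡ 1 [MOD p ^ a] → ∃ j : ℕ, s ≡ u ^ j [MOD p ^ (n + a)] := by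
    rcases Nat.eq_zero_or_pos a with h0 | h1
    · subst h0
      have hp2 : p ≠ 2 := fun h => by have := ha h; omega
      have hpn : NeZero (p ^ (n + 0)) := ⟨(pow_pos hp.pos _).ne'⟩
      rcases Nat.eq_zero_or_pos n with hn0 | hn0
      · subst hn0
        refine ⟨1, hp.one_lt.ne' ∘ Nat.dvd_one.mp, rfl, fun s _ _ => ⟨0, ?_⟩⟩
        simp [Nat.modEq_one]
      · have hcyc := ZMod.isCyclic_units_of_prime_pow p hp hp2 (n + 0)
        obtain ⟨g, hg⟩ := hcyc.exists_generator
        refine ⟨(g : ZMod (p ^ (n + 0))).val, ?_, by simp [Nat.modEq_one], ?_⟩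
        · intro h
          have h1 := ZMod.val_coe_unit_coprime g
          have h2 : p ∣ p ^ (n + 0) := dvd_pow_self p (by omega)
          have := Nat.dvd_gcd h h2
          rw [h1] at this
          exact hp.one_lt.ne' (Nat.dvd_one.mp this)
        · intro s hs _
          have hsc : Nat.Coprime s (p ^ (n + 0)) :=
            Nat.Coprime.pow_right _ ((Nat.Prime.coprime_iff_not_dvd hp).mpr hs).symm
          obtain ⟨j, hj⟩ := (mem_powers_iff_mem_zpowers.mpr (hg (ZMod.unitOfCoprime s hsc)))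
          refine ⟨j, ?_⟩
          rw [← ZMod.natCast_eq_natCast_iff]
          push_cast
          rw [ZMod.natCast_zmod_val]
          have := congrArg (Units.val) hj
          simp only [Units.val_pow_eq_pow_val, ZMod.coe_unitOfCoprime] at this
          exact this.symm
    · refine ⟨1 + p ^ a, ?_, ?_, ?_⟩
      · intro h
        have h2 : p ∣ p ^ a := dvd_pow_self p (by omega)
        have h3 : p ∣ 1 := (Nat.dvd_add_left h2).mp h
        exact hp.one_lt.ne' (Nat.dvd_one.mp h3)
      · simp [Nat.ModEq]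
      · intro s hs hs1
        have hspos : 1 ≤ s := by
          rcases Nat.eq_zero_or_pos s with h | h
          · exact absurd (h ▸ dvd_zero p) hs
          · exact h
        obtain ⟨c, hc⟩ := (Nat.modEq_iff_dvd' hspos).mp hs1.symm
        have hsc : s = 1 + p ^ a * c := by omega
        obtain ⟨j, hj⟩ := gen_one hp h1 ha n c
        refine ⟨j, ?_⟩
        rw [← ZMod.natCast_eq_natCast_iff, hsc, hj]
        push_cast
        rfl
  obtain ⟨u, hu1, hu2, hu3⟩ := key
  have hcop : Nat.Coprime (p ^ (n + a)) m :=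
    Nat.Coprime.pow_left _ ((Nat.Prime.coprime_iff_not_dvd hp).mpr hm)
  by_cases hna : n + a = 0
  · have hn0 : n = 0 := by omega
    have ha0 : a = 0 := by omega
    subst hn0 ha0
    refine ⟨1, hp.one_lt.ne' ∘ Nat.dvd_one.mp, rfl, rfl, fun s _ _ => ⟨0, ?_⟩⟩
    simp [Nat.modEq_one]
  · obtain ⟨t, ht1, ht2⟩ := Nat.chineseRemainder hcop u 1
    refine ⟨t, ?_, ?_, ht2, ?_⟩
    · intro h
      apply hu1
      have h1 : t ≡ u [MOD p] := ht1.of_dvd (dvd_pow_self p hna)
      exact (h1.dvd_iff (dvd_refl p)).mp h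
    · exact (ht1.of_dvd (pow_dvd_pow p (Nat.le_add_left a n))).trans hu2
    · intro s hs hs1
      obtain ⟨j, hj⟩ := hu3 s hs hs1
      exact ⟨j, (hj.trans (ht1.symm.pow j)).of_dvd (pow_dvd_pow p (Nat.le_add_right n a))⟩

lemma isConj_pow_pow {H : Type} [Group H] {x : H} {t : ℕ} (h : IsConj x (x ^ t)) (j : ℕ) :
    IsConj x (x ^ t ^ j) := by
  induction j with
  | zero => simpa using IsConj.refl x
  | succ j ih =>
    have h1 := isConj_pow h (t ^ j)
    rw [← pow_mul, ← pow_succ'] at h1
    exact ih.trans h1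

/-- rationality is detected by one exponent -/
theorem exists_detecting [Fact p.Prime] (a : ℕ) (ha : p = 2 → 2 ≤ a) (N : ℕ) (hN : N ≠ 0) :
    ∃ t : ℕ, t ≡ 1 [MOD N / p ^ N.factorization p] ∧
      ∀ (H : Type) [Group H] (x : H), orderOf x ∣ N → (IsRational p a x ↔ IsConj x (x ^ t)) := by
  have hp : p.Prime := Fact.out
  set n := N.factorization p with hn
  have hmv : p ^ n * (N / p ^ n) = N := Nat.ordProj_mul_ordCompl_eq_self N p
  obtain ⟨t, ht1, ht2, ht3, ht4⟩ := exists_exponent (p := p) ha n (N / p ^ n)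
    (Nat.not_dvd_ordCompl hp hN)
  refine ⟨t, ht3, fun H _ x hx => ?_⟩
  have hx0 : orderOf x ≠ 0 := fun h => hN (Nat.eq_zero_of_zero_dvd (h ▸ hx))
  have hd : orderOf x / p ^ (orderOf x).factorization p ∣ N / p ^ n :=
    Nat.ordCompl_dvd_ordCompl_of_dvd hx p
  have hd2 : p ^ (orderOf x).factorization p ∣ p ^ n := by
    apply pow_dvd_pow
    exact (Nat.factorization_le_iff_dvd hx0 hN).mpr hx p
  constructor
  · intro h
    exact h t ht1 ht2 (ht3.of_dvd hd)
  · intro h s hs1 hs2 hs3
    obtain ⟨j, hj⟩ := ht4 s hs1 hs2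
    have h1 : x ^ s = x ^ t ^ j := by
      rw [pow_eq_pow_iff_modEq]
      rw [← Nat.ordProj_mul_ordCompl_eq_self (orderOf x) p]
      rw [← Nat.modEq_and_modEq_iff_modEq_mul]
      · refine ⟨hj.of_dvd hd2, ?_⟩
        have h2 : t ^ j ≡ 1 ^ j [MOD orderOf x / p ^ (orderOf x).factorization p] :=
          (ht3.of_dvd hd).pow j
        rw [one_pow] at h2
        exact hs3.trans h2.symm
      · exact Nat.Coprime.pow_left _ ((Nat.Prime.coprime_iff_not_dvd hp).mpr
          (Nat.not_dvd_ordCompl hp hx0))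
    rw [h1]
    exact isConj_pow_pow h j

lemma isRational_mono {H : Type} [Group H] {a b : ℕ} (hab : a ≤ b) {x : H}
    (h : IsRational p a x) : IsRational p b x :=
  fun s h1 h2 h3 => h s h1 (h2.of_dvd (pow_dvd_pow p hab)) h3

lemma isRational_conj {H : Type} [Group H] {a : ℕ} {x y : H} (hxy : IsConj x y)
    (h : IsRational p a x) : IsRational p a y := by
  intro s h1 h2 h3
  have ho : orderOf y = orderOf x := by
    obtain ⟨c, rfl⟩ := isConj_iff.mp hxy
    have h1 := orderOf_injective (MulAut.conj c).toMonoidHom (MulAut.conj c).injective x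
    simpa using h1
  rw [ho] at h3
  exact (hxy.symm.trans (h s h1 h2 h3)).trans (isConj_pow hxy s)

theorem numRational_eq [Fact p.Prime] [Finite G] (a : ℕ) (ha : p = 2 → 2 ≤ a) :
    ∃ t : ℕ, t ≡ 1 [MOD Nat.card G / p ^ (Nat.card G).factorization p] ∧
      ∀ H : Subgroup G, numRational p a H = numFixed t H := by
  obtain ⟨t, ht1, ht⟩ := exists_detecting (p := p) a ha (Nat.card G) Nat.card_pos.ne'
  refine ⟨t, ht1, fun H => ?_⟩
  unfold numRational numFixed
  refine Nat.card_congr (Equiv.subtypeEquivRight fun c => ?_)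
  refine exists_congr fun x => and_congr_right fun _ => ?_
  exact ht H x ((orderOf_dvd_natCard x).trans (Subgroup.card_subgroup_dvd_card H))

lemma numFixedRegular_eq [Fact p.Prime] [Finite G] {s : ℕ} (H : Subgroup G)
    (hs : s ≡ 1 [MOD Nat.card G / p ^ (Nat.card G).factorization p]) :
    numFixedRegular p s H = numFixedRegular p 1 H := by
  have hp : p.Prime := Fact.out
  unfold numFixedRegular
  refine Nat.card_congr (Equiv.subtypeEquivRight fun c => ?_)
  refine exists_congr fun x => and_congr_right fun _ => ?_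
  refine and_congr_left fun hx => ?_
  have hd : orderOf x ∣ Nat.card G / p ^ (Nat.card G).factorization p := by
    have h1 : orderOf x ∣ Nat.card G :=
      (orderOf_dvd_natCard x).trans (Subgroup.card_subgroup_dvd_card H)
    rw [← Nat.ordProj_mul_ordCompl_eq_self (Nat.card G) p] at h1
    exact Nat.Coprime.dvd_of_dvd_mul_left (Nat.Coprime.pow_right _
      ((Nat.Prime.coprime_iff_not_dvd hp).mpr hx).symm) h1
  have h2 : x ^ s = x ^ 1 := pow_eq_pow_iff_modEq.mpr (hs.of_dvd hd)
  rw [h2]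

lemma numFixed_one (H : Type) [Group H] : numFixed 1 H = Nat.card (ConjClasses H) := by
  unfold numFixed
  refine Nat.card_congr (Equiv.subtypeUnivEquiv fun c => ?_)
  obtain ⟨x, rfl⟩ := ConjClasses.mk_surjective c
  exact ⟨x, rfl, by rw [pow_one]⟩

/-- the alternating sum of `p^a`-rational classes does not depend on `a` -/
theorem sum_rational [Fact p.Prime] [Finite G] (a : ℕ) (ha : p = 2 → 2 ≤ a) :
    alternatingSum p G (fun H => (numRational p a H : ℤ)) =
      alternatingSum p G (fun H => (Nat.card (ConjClasses H) : ℤ)) := by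
  obtain ⟨t, ht1, ht⟩ := numRational_eq (p := p) (G := G) a ha
  have e1 : (fun H : Subgroup G => (numRational p a H : ℤ)) =
      fun H : Subgroup G => (numFixed t H : ℤ) := funext fun H => by rw [ht]
  have e2 : (fun H : Subgroup G => (Nat.card (ConjClasses H) : ℤ)) =
      fun H : Subgroup G => (numFixed 1 H : ℤ) := funext fun H => by rw [numFixed_one]
  have e3 : (fun H : Subgroup G => (numFixedRegular p t H : ℤ)) =
      fun H : Subgroup G => (numFixedRegular p 1 H : ℤ) :=
    funext fun H => by rw [numFixedRegular_eq H ht1]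
  rw [e1, e2, galois t, galois 1, e3]

lemma alternatingSum_sub [Finite G] (f g : Subgroup G → ℤ) :
    alternatingSum p G (fun H => f H - g H) = alternatingSum p G f - alternatingSum p G g := by
  unfold alternatingSum
  rw [← finsum_sub_distrib (Set.toFinite _) (Set.toFinite _)]
  refine finsum_congr fun c => ?_
  ring

lemma numLevel_add [Finite G] {a : ℕ} (H : Subgroup G) :
    (numLevel p a H : ℤ) = numRational p a H - numRational p (a - 1) H := by
  have h : numRational p a H = numLevel p a H + numRational p (a - 1) H := by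
    unfold numLevel numRational
    rw [← Nat.card_sum]
    refine Nat.card_congr ?_
    have hc : ∀ (b : ℕ) (x y : H), IsConj x y → (IsRational p b x ↔ IsRational p b y) :=
      fun b x y h => ⟨isRational_conj h, isRational_conj h.symm⟩
    let P : ConjClasses H → Prop := fun c => ∃ x : H, ConjClasses.mk x = c ∧ IsRational p a x
    let Q : ConjClasses H → Prop := fun c => ∃ x : H, ConjClasses.mk x = c ∧ IsRational p a x ∧
      ¬ IsRational p (a - 1) x
    let R : ConjClasses H → Prop := fun c => ∃ x : H, ConjClasses.mk x = c ∧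
      IsRational p (a - 1) x
    have h1 : ∀ c, P c ↔ (Q c ∨ R c) := by
      intro c
      constructor
      · rintro ⟨x, hx, h1⟩
        by_cases h2 : IsRational p (a - 1) x
        · exact Or.inr ⟨x, hx, h2⟩
        · exact Or.inl ⟨x, hx, h1, h2⟩
      · rintro (⟨x, hx, h1, -⟩ | ⟨x, hx, h1⟩)
        · exact ⟨x, hx, h1⟩
        · exact ⟨x, hx, isRational_mono (Nat.sub_le a 1) h1⟩
    have h2 : Disjoint Q R := by
      rw [Pi.disjoint_iff]
      intro c
      rw [Prop.disjoint_iff]
      rintro ⟨⟨x, hx, -, h4⟩, ⟨y, hy, h5⟩⟩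
      have h6 : IsConj x y := ConjClasses.mk_eq_mk_iff_isConj.mp (hx.trans hy.symm)
      exact h4 ((hc _ _ _ h6).mpr h5)
    exact (Equiv.subtypeEquivRight h1).trans (subtypeOrEquiv Q R h2)
  rw [h]
  push_cast
  ring

/-- **Vanishing of the positive levels.** -/
theorem sum_level [Fact p.Prime] [Finite G] (a : ℕ) (_ : 1 ≤ a) (ha : p = 2 → 3 ≤ a) :
    alternatingSum p G (fun H => (numLevel p a H : ℤ)) = 0 := by
  have e : (fun H : Subgroup G => (numLevel p a H : ℤ)) =
      fun H : Subgroup G => (numRational p a H : ℤ) - (numRational p (a - 1) H : ℤ) :=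
    funext fun H => numLevel_add H
  rw [e, alternatingSum_sub, sum_rational a (fun h => by have := ha h; omega),
    sum_rational (a - 1) (fun h => by have := ha h; omega), sub_self]

/-! ### The Euler characteristic -/

lemma W_eq [Finite G] (K : Set G) : W p K = 1 - eulerChar (fixedPoset p K) := by
  have h0 : Fintype (Set (Subgroup G)) := Fintype.ofFinite _
  have h1 : Fintype {σ : Set (Subgroup G) // IsPChain p σ} := Fintype.ofFinite _
  have h2 : Fintype {σ : Set (Subgroup G) // σ ⊆ fixedPoset p K ∧ σ.Nonempty ∧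
    IsChain (· ≤ ·) σ} := Fintype.ofFinite _
  have h3 : Fintype {σ : Set (Subgroup G) // IsPChain p σ ∧ ∀ P ∈ σ, ∀ x ∈ K, conjSub x P = P} :=
    Fintype.ofFinite _
  unfold W eulerChar
  rw [finsum_eq_sum_of_fintype, finsum_eq_sum_of_fintype]
  have e1 : ∀ σ : {σ : Set (Subgroup G) // IsPChain p σ},
      (-1 : ℤ) ^ σ.1.ncard * (if ∀ P ∈ σ.1, ∀ x ∈ K, conjSub x P = P then 1 else 0) =
      if ∀ P ∈ σ.1, ∀ x ∈ K, conjSub x P = P then (-1 : ℤ) ^ σ.1.ncard else 0 := by
    intro σ
    split_ifs <;> simp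
  simp only [e1]
  rw [← Finset.sum_filter]
  have e2 : ∑ σ ∈ Finset.univ.filter (fun σ : {σ : Set (Subgroup G) // IsPChain p σ} =>
      ∀ P ∈ σ.1, ∀ x ∈ K, conjSub x P = P), (-1 : ℤ) ^ σ.1.ncard =
      ∑ σ ∈ (Finset.univ : Finset (Set (Subgroup G))).filter
        (fun σ => IsPChain p σ ∧ ∀ P ∈ σ, ∀ x ∈ K, conjSub x P = P), (-1 : ℤ) ^ σ.ncard := by
    refine Finset.sum_bij (fun σ _ => σ.1) ?_ ?_ ?_ ?_
    · intro σ hσ
      rw [Finset.mem_filter]
      exact ⟨Finset.mem_univ _, σ.2, (Finset.mem_filter.mp hσ).2⟩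
    · intro σ _ τ _ h
      exact Subtype.ext h
    · intro σ hσ
      rw [Finset.mem_filter] at hσ
      exact ⟨⟨σ, hσ.2.1⟩, by rw [Finset.mem_filter]; exact ⟨Finset.mem_univ _, hσ.2.2⟩, rfl⟩
    · intro σ _
      rfl
  have e3 : ∑ σ : {σ : Set (Subgroup G) // σ ⊆ fixedPoset p K ∧ σ.Nonempty ∧
      IsChain (· ≤ ·) σ}, (-1 : ℤ) ^ (σ.1.ncard + 1) =
      ∑ σ ∈ (Finset.univ : Finset (Set (Subgroup G))).filter
        (fun σ => σ ⊆ fixedPoset p K ∧ σ.Nonempty ∧ IsChain (· ≤ ·) σ),
          (-1 : ℤ) ^ (σ.ncard + 1) :=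
    (Finset.sum_subtype _ (by simp) (fun σ : Set (Subgroup G) => (-1 : ℤ) ^ (σ.ncard + 1))).symm
  have e4 : (Finset.univ : Finset (Set (Subgroup G))).filter
        (fun σ => IsPChain p σ ∧ ∀ P ∈ σ, ∀ x ∈ K, conjSub x P = P) =
      insert ∅ ((Finset.univ : Finset (Set (Subgroup G))).filter
        (fun σ => σ ⊆ fixedPoset p K ∧ σ.Nonempty ∧ IsChain (· ≤ ·) σ)) := by
    ext σ
    simp only [Finset.mem_filter, Finset.mem_univ, true_and, Finset.mem_insert]
    constructor
    · rintro ⟨h4, h5⟩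
      rcases Set.eq_empty_or_nonempty σ with h6 | h6
      · exact Or.inl h6
      · exact Or.inr ⟨fun P hP => ⟨h4.isPGroup P hP, h4.ne_bot P hP, h5 P hP⟩, h6, h4.chain⟩
    · rintro (rfl | ⟨h4, h5, h6⟩)
      · exact ⟨⟨Set.Subsingleton.isChain (by simp), by simp, by simp⟩, by simp⟩
      · exact ⟨⟨h6, fun P hP => (h4 hP).1, fun P hP => (h4 hP).2.1⟩, fun P hP => (h4 hP).2.2⟩
  rw [e2, e3, e4, Finset.sum_insert (by simp)]
  simp only [Set.ncard_empty, pow_zero, pow_succ, mul_neg, mul_one, Finset.sum_neg_distrib]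
  ring

theorem altSum_classes [Fact p.Prime] [Finite G] :
    ((alternatingSum p G (fun H => (Nat.card (ConjClasses H) : ℤ)) : ℤ) : ℚ) =
      (Nat.card (ConjClasses G) : ℚ) - chi2 p G := by
  have : Fintype (TwPair 1 G) := Fintype.ofFinite _
  have h0 : (Nat.card G : ℚ) ≠ 0 := by exact_mod_cast Nat.card_pos.ne'
  have e2 : (fun H : Subgroup G => (Nat.card (ConjClasses H) : ℤ)) =
      fun H : Subgroup G => (numR 1 H (fun _ => True) : ℤ) := funext fun H => by
    rw [← numFixed_eq, numFixed_one]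
  have h1 := sum_numR (p := p) (G := G) 1 (fun _ => True)
  rw [← e2] at h1
  have h2 := card_mul_numR 1 G (fun _ => True) (fun _ _ _ => Iff.rfl)
  rw [← numFixed_eq, numFixed_one] at h2
  have h3 : Nat.card {q : G × G // q.2 * q.1 * q.2⁻¹ = q.1 ^ 1 ∧ True} = Fintype.card (TwPair 1 G) := by
    rw [← Nat.card_eq_fintype_card]
    exact Nat.card_congr (Equiv.subtypeEquivRight fun q => by simp)
  rw [h3] at h2
  have h4 : ∑ q : TwPair 1 G, W p ({q.1.1, q.1.2} : Set G) * bz True =
      (Fintype.card (TwPair 1 G) : ℤ) -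
        ∑ q : TwPair 1 G, eulerChar (fixedPoset p ({q.1.1, q.1.2} : Set G)) := by
    simp only [bz_pos trivial, mul_one, W_eq]
    rw [Finset.sum_sub_distrib]
    simp
  rw [h4] at h1
  have h5 : (∑ᶠ q : {q : G × G // q.1 * q.2 = q.2 * q.1},
      (eulerChar (fixedPoset p ({q.1.1, q.1.2} : Set G)) : ℚ)) =
      ((∑ q : TwPair 1 G, eulerChar (fixedPoset p ({q.1.1, q.1.2} : Set G)) : ℤ) : ℚ) := by
    push_cast
    rw [← finsum_eq_sum_of_fintype]
    refine finsum_eq_of_bijective (fun q : {q : G × G // q.1 * q.2 = q.2 * q.1} =>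
      (⟨q.1, by rw [pow_one, ← q.2]; group⟩ : TwPair 1 G)) ?_ (fun q => rfl)
    constructor
    · intro q q' h
      exact Subtype.ext (congrArg (fun t : TwPair 1 G => t.1) h)
    · intro q
      refine ⟨⟨q.1, ?_⟩, rfl⟩
      have := q.2
      rw [pow_one, mul_inv_eq_iff_eq_mul] at this
      exact this.symm
  unfold chi2
  rw [h5]
  have h6 := congrArg (Int.cast : ℤ → ℚ) h1
  rw [← h2] at h6
  push_cast at h6 ⊢
  field_simp
  linarith

theorem krc_iff [Fact p.Prime] [Finite G] (a : ℕ) (ha : p = 2 → 2 ≤ a) :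
    KRC p G ↔ alternatingSum p G (fun H => (numRational p a H : ℤ)) =
      (Pool.Agent.Y63.AWC.numDefectZero p G : ℤ) := by
  rw [sum_rational a ha]
  unfold KRC
  have h := altSum_classes (p := p) (G := G)
  constructor
  · intro h1
    rw [h1] at h
    have : ((alternatingSum p G (fun H => (Nat.card (ConjClasses H) : ℤ)) : ℤ) : ℚ) =
      ((Pool.Agent.Y63.AWC.numDefectZero p G : ℤ) : ℚ) := by
      rw [h]; push_cast; ring
    exact_mod_cast this
  · intro h1
    rw [h1] at h
    push_cast at h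
    linarith

end

end Pool.Agent.Y63.KR
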