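import Pool.Agent.Y63.KR.Divis
import Pool.Agent.Y63.KR.Levels
import Pool.Agent.Y63.AWC.Base

/-!
# Characters of defect zero and numbers of homomorphisms from surface groups
-/

open scoped BigOperators Classical
open Pool.Agent.Helper884.IC Pool.Agent.Y63.AWC

set_option linter.unusedSectionVars false

noncomputable section

namespace Pool.Agent.Y63.KR

section

variable {p : ℕ} [hp : Fact p.Prime] {G : Type} [Group G] [Fintype G]

lemma cod_pos {chi : G → ℂ} (h : IsIrrChar chi) : 0 < cod chi := by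
  rcases Nat.eq_zero_or_pos (cod chi) with h1 | h1
  · have := cod_spec h
    rw [h1, mul_zero] at this
    exact absurd this.symm Nat.card_pos.ne'
  · exact h1

lemma DZ_iff {chi : G → ℂ} (h : IsIrrChar chi) : DZ p chi ↔ ¬ p ∣ cod chi := by
  obtain ⟨h1, h2⟩ := dg_spec h
  have h3 := cod_pos h
  have h4 : (Nat.card G).factorization p = (dg chi).factorization p + (cod chi).factorization p := by
    rw [← cod_spec h, Nat.factorization_mul h2.ne' h3.ne']
    rfl
  have h5 : DZ p chi ↔ (cod chi).factorization p = 0 := by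
    constructor
    · rintro ⟨n, hn, h6⟩
      have : n = dg chi := by
        rw [h1] at hn
        exact_mod_cast hn.symm
      subst this
      omega
    · intro h6
      exact ⟨dg chi, h1, by omega⟩
  rw [h5]
  constructor
  · intro h6 h7
    have := hp.out.factorization_pos_of_dvd h3.ne' h7
    omega
  · intro h6
    exact Nat.factorization_eq_zero_of_not_dvd h6

/-- `∑_χ (|G| / χ(1))^(2n)`, the number of homomorphisms from the surface group of genus `n + 1`,
divided by `|G|` -/
def zsum (n : ℕ) (G : Type) [Group G] [Fintype G] : ℕ := ∑ chi ∈ Irr G, cod chi ^ (2 * n)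

lemma numHom_zsum (n : ℕ) : numHom (n + 1) G = Nat.card G * zsum n G := numHom_eq n

/-- the part of `zsum` coming from the characters of defect zero -/
def zsum0 (p n : ℕ) (G : Type) [Group G] [Fintype G] : ℕ :=
  ∑ chi ∈ (Irr G).filter (fun chi => ¬ p ∣ cod chi), cod chi ^ (2 * n)

lemma numDefectZero_eq_card :
    numDefectZero p G = ((Irr G).filter (fun chi => ¬ p ∣ cod chi)).card := by
  rw [numDefectZero_eq]
  congr 1
  apply Finset.filter_congr
  intro chi hchi
  exact DZ_iff (mem_Irr.mp hchi)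

lemma zsum0_zero : zsum0 p 0 G = numDefectZero p G := by
  rw [numDefectZero_eq_card]
  unfold zsum0
  simp

/-- modulo `p^(2n)` only the characters of defect zero contribute -/
lemma zsum_mod (n : ℕ) : zsum n G ≡ zsum0 p n G [MOD p ^ (2 * n)] := by
  unfold zsum zsum0
  rw [← Finset.sum_filter_add_sum_filter_not (Irr G) (fun chi => ¬ p ∣ cod chi)]
  have : (∑ chi ∈ (Irr G).filter (fun chi => ¬ ¬ p ∣ cod chi), cod chi ^ (2 * n)) ≡ 0
      [MOD p ^ (2 * n)] := by
    rw [Nat.modEq_zero_iff_dvd]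
    refine Finset.dvd_sum fun chi hchi => ?_
    have h1 : p ∣ cod chi := not_not.mp (Finset.mem_filter.mp hchi).2
    exact pow_dvd_pow_of_dvd h1 _
  have h2 := Nat.ModEq.add_left (∑ chi ∈ (Irr G).filter (fun chi => ¬ p ∣ cod chi),
    cod chi ^ (2 * n)) this
  rwa [add_zero] at h2

lemma unit_pow {m N n : ℕ} (hm : ¬ p ∣ m) (hn : p ^ N * (p - 1) ∣ n) :
    m ^ n ≡ 1 [MOD p ^ (N + 1)] := by
  obtain ⟨k, rfl⟩ := hn
  have hcop : Nat.Coprime m (p ^ (N + 1)) :=
    (Nat.Coprime.pow_left _ ((Nat.Prime.coprime_iff_not_dvd hp.out).mpr hm)).symm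
  have h1 := Nat.ModEq.pow_totient hcop
  rw [Nat.totient_prime_pow_succ hp.out] at h1
  have h2 := h1.pow k
  rwa [← pow_mul, one_pow] at h2

lemma zsum0_mod {N n : ℕ} (hn : p ^ N * (p - 1) ∣ n) :
    zsum0 p n G ≡ numDefectZero p G [MOD p ^ (N + 1)] := by
  rw [numDefectZero_eq_card]
  unfold zsum0
  rw [Finset.card_eq_sum_ones]
  apply Nat.ModEq.sum
  intro chi hchi
  exact unit_pow (Finset.mem_filter.mp hchi).2 (Dvd.dvd.mul_left hn 2)

lemma two_mul_ge {N n : ℕ} (hn0 : n ≠ 0) (hn : p ^ N * (p - 1) ∣ n) : N + 1 ≤ 2 * n := by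
  have h1 : p ^ N * (p - 1) ≤ n := Nat.le_of_dvd (Nat.pos_of_ne_zero hn0) hn
  have h2 := hp.out.two_le
  have h3 : N + 1 ≤ p ^ N := by
    have := Nat.lt_pow_self (n := N) hp.out.one_lt
    omega
  have h4 : 1 ≤ p - 1 := by omega
  nlinarith

/-- **`p`-adic interpolation.** -/
theorem zsum_mod_defectZero {N n : ℕ} (hn0 : n ≠ 0) (hn : p ^ N * (p - 1) ∣ n) :
    zsum n G ≡ numDefectZero p G [MOD p ^ (N + 1)] :=
  ((zsum_mod n).of_dvd (pow_dvd_pow p (two_mul_ge hn0 hn))).trans (zsum0_mod hn)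

/-- a nontrivial normal `p`-subgroup contains a nontrivial abelian normal subgroup -/
lemma exists_abelian {P : Subgroup G} (hP : IsPGroup p P) (hn : P.Normal) (h1 : P ≠ ⊥) :
    ∃ A : Subgroup G, A.Normal ∧ (∀ a ∈ A, ∀ b ∈ A, a * b = b * a) ∧ p ∣ Nat.card A := by
  have hnt : Nontrivial P := (Subgroup.nontrivial_iff_ne_bot P).mpr h1
  have hz : Nontrivial (Subgroup.center P) := hP.center_nontrivial
  have hN : ((Subgroup.center P).map P.subtype).Normal :=
    ConjAct.normal_of_characteristic_of_normal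
  refine ⟨(Subgroup.center P).map P.subtype, hN, ?_, ?_⟩
  · rintro _ ⟨a, ha, rfl⟩ _ ⟨b, hb, rfl⟩
    have := Subgroup.mem_center_iff.mp ha b
    have h2 := congrArg P.subtype this
    simp only [map_mul] at h2
    exact h2.symm
  · have e : Nat.card ((Subgroup.center P).map P.subtype) = Nat.card (Subgroup.center P) :=
      Nat.card_congr (Subgroup.equivMapOfInjective _ _ P.subtype_injective).toEquiv.symm
    rw [e]
    obtain ⟨k, hk⟩ := IsPGroup.iff_card.mp (hP.to_subgroup (Subgroup.center P))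
    have h2 : 1 < Nat.card (Subgroup.center P) := Finite.one_lt_card
    rw [hk] at h2 ⊢
    rcases Nat.eq_zero_or_pos k with h3 | h3
    · rw [h3, pow_zero] at h2
      omega
    · exact dvd_pow_self p h3.ne'

/-- a group with a nontrivial normal `p`-subgroup has no characters of defect zero -/
theorem defectZero_normal {P : Subgroup G} (hP : IsPGroup p P) (hn : P.Normal) (h1 : P ≠ ⊥) :
    numDefectZero p G = 0 := by
  obtain ⟨A, hA, hc, hpA⟩ := exists_abelian hP hn h1
  by_contra hz
  set v := (Nat.card G).factorization p with hv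
  -- choose `N` large
  obtain ⟨N, hN⟩ : ∃ N : ℕ, numDefectZero p G < p ^ (N + 1) ∧ v ≤ N :=
    ⟨numDefectZero p G + v, (Nat.lt_pow_self hp.out.one_lt).trans_le
      (Nat.pow_le_pow_right hp.out.pos (by omega)), by omega⟩
  set n := p ^ N * (p - 1) with hn'
  have hp2 := hp.out.two_le
  have hn0 : n ≠ 0 := by
    have : 0 < p ^ N := pow_pos hp.out.pos _
    have : 0 < p - 1 := by omega
    positivity
  have h2 := zsum_mod_defectZero (p := p) (G := G) hn0 (dvd_refl n)
  have h3 : p ^ (2 * n + 1) ∣ Nat.card G * zsum n G := by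
    rw [← numHom_zsum]
    exact (pow_dvd_pow_of_dvd hpA _).trans (dvd_numHom A hA hc n)
  have h4 : p ^ (N + 1) ∣ zsum n G := by
    have h5 : N + 1 + v ≤ 2 * n + 1 := by
      have h6 : p ^ N * 1 ≤ n := Nat.mul_le_mul_left _ (by omega)
      have h7 : N + 1 ≤ p ^ N := by
        have := Nat.lt_pow_self (n := N) hp.out.one_lt
        omega
      omega
    have h6 : p ^ (N + 1) * p ^ v ∣ Nat.card G * zsum n G := by
      rw [← pow_add]
      exact (pow_dvd_pow p h5).trans h3
    have h7 : p ^ v * (Nat.card G / p ^ v) = Nat.card G := Nat.ordProj_mul_ordCompl_eq_self _ _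
    rw [← h7, mul_comm, mul_assoc] at h6
    have h8 := Nat.dvd_of_mul_dvd_mul_left (pow_pos hp.out.pos v) h6
    refine Nat.Coprime.dvd_of_dvd_mul_left ?_ h8
    exact Nat.Coprime.pow_left _ ((Nat.Prime.coprime_iff_not_dvd hp.out).mpr
      (Nat.not_dvd_ordCompl hp.out Nat.card_pos.ne'))
  have h5 : p ^ (N + 1) ∣ numDefectZero p G := (h2.dvd_iff (dvd_refl _)).mp h4
  exact absurd (Nat.le_of_dvd (Nat.pos_of_ne_zero hz) h5) (by omega)

end

end Pool.Agent.Y63.KR
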