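import Pool.Agent.Y63.KR.Chi

/-!
# The unreduced equivariant Euler characteristic of surface groups
-/

open scoped BigOperators Classical
open Pool.Agent.Y63.AWC

set_option linter.unusedSectionVars false

noncomputable section

namespace Pool.Agent.Y63.KR

/-- The equivariant Euler characteristic of the poset of nontrivial `p`-subgroups of `G` for the
fundamental group `Π_g` of the closed orientable surface of genus `g`: `|G|⁻¹ ∑_φ χ(X^φ(Π_g))`,
where `φ` runs over the homomorphisms `Π_g → G`. -/
def surfaceEuler (p g : ℕ) (G : Type) [Group G] : ℚ :=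
  (∑ᶠ q : {q : Fin g → G × G // surfaceWord q = 1},
    (eulerChar (fixedPoset p (coords q.1)) : ℚ)) / (Nat.card G : ℚ)

section

variable {p : ℕ} [hp : Fact p.Prime] {G : Type} [Group G]

lemma surfaceEuler_eq [Finite G] (n : ℕ) :
    surfaceEuler p (n + 1) G = surfaceChi p (n + 1) G + (surfaceCount (n + 1) G : ℚ) := by
  have : Fintype {q : Fin (n + 1) → G × G // surfaceWord q = 1} := Fintype.ofFinite _
  have h0 : (Nat.card G : ℚ) ≠ 0 := by exact_mod_cast Nat.card_pos.ne'
  have h1 := card_mul_surfaceCount (G := G) n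
  have h2 : (Nat.card G : ℚ) * (surfaceCount (n + 1) G : ℚ) = (numHom (n + 1) G : ℚ) := by
    rw [← h1]; push_cast; ring
  unfold surfaceEuler surfaceChi
  rw [finsum_eq_sum_of_fintype, finsum_eq_sum_of_fintype, Finset.sum_sub_distrib]
  have h3 : ∑ _q : {q : Fin (n + 1) → G × G // surfaceWord q = 1}, (1 : ℚ) =
      (numHom (n + 1) G : ℚ) := by
    unfold numHom
    rw [Nat.card_eq_fintype_card]
    simp
  rw [h3, ← h2]
  field_simp
  ring

/-- **Brown's theorem for surface groups.** -/
theorem surfaceEuler_dvd [Finite G] (n : ℕ) :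
    ∃ c : ℤ, surfaceEuler p (n + 1) G = (p : ℚ) ^ (2 * n) * c := by
  obtain ⟨c, hc⟩ := alternatingSum_mod (p := p) (G := G) n
  refine ⟨-c, ?_⟩
  rw [surfaceEuler_eq, surfaceChi_eq]
  have h2 := congrArg (Int.cast : ℤ → ℚ) hc
  push_cast at h2 ⊢
  linarith

end

end Pool.Agent.Y63.KR
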