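import Pool.Agent.Y63.KR.Chi

/-!
# Numbers of characters by defect and surface groups
-/

open scoped BigOperators Classical
open Pool.Agent.Helper884.IC Pool.Agent.Y63.AWC

set_option linter.unusedSectionVars false
set_option linter.style.haveILetI false

noncomputable section

namespace Pool.Agent.Y63.KR

/-- `k^d(H)`: the number of irreducible complex characters `χ` of `H` of `p`-defect `d`, that is,
with `|H|_p = p^d χ(1)_p`. -/
def numDefect (p d : ℕ) (H : Type) [Group H] : ℕ :=
  Nat.card {χ : H → ℂ // IsIrreducibleCharacter χ ∧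
    ∃ n : ℕ, χ 1 = (n : ℂ) ∧ (Nat.card H).factorization p = n.factorization p + d}

section

variable {p : ℕ} [hp : Fact p.Prime]

/-- the part of slope at least `d` -/
def slope (p d n : ℕ) (H : Type) [Group H] [Fintype H] : ℤ :=
  ∑ chi ∈ (Irr H).filter (fun chi => p ^ d ∣ cod chi), ((cod chi / p ^ d : ℕ) : ℤ) ^ (2 * n)

section

variable {H : Type} [Group H] [Fintype H]

lemma slope_zero (n : ℕ) : slope p 0 n H = (zsum n H : ℤ) := by
  unfold slope zsum
  push_cast
  refine Finset.sum_congr ?_ fun chi _ => ?_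
  · apply Finset.filter_true_of_mem
    intro chi _
    simp
  · simp

lemma slope_dvd (d n k : ℕ) :
    (p : ℤ) ^ (k + 1) ∣ slope p d n H - slope p d (n + (p - 1) * p ^ k) H -
      (p : ℤ) ^ (2 * n) * slope p (d + 1) n H := by
  have e : slope p (d + 1) n H = ∑ chi ∈ (Irr H).filter (fun chi => p ^ d ∣ cod chi),
      if p ∣ cod chi / p ^ d then ((cod chi / p ^ (d + 1) : ℕ) : ℤ) ^ (2 * n) else 0 := by
    unfold slope
    rw [← Finset.sum_filter, Finset.filter_filter]
    refine Finset.sum_congr ?_ fun _ _ => rfl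
    apply Finset.filter_congr
    intro chi _
    constructor
    · intro h
      refine ⟨(pow_dvd_pow p (Nat.le_succ d)).trans h, ?_⟩
      rw [pow_succ] at h
      exact (Nat.dvd_div_iff_mul_dvd ((Dvd.intro _ rfl).trans h)).mpr h
    · rintro ⟨h1, h2⟩
      rw [pow_succ]
      exact (Nat.dvd_div_iff_mul_dvd h1).mp h2
  rw [e]
  unfold slope
  rw [← Finset.sum_sub_distrib, Finset.mul_sum, ← Finset.sum_sub_distrib]
  refine Finset.dvd_sum fun chi hchi => ?_
  obtain ⟨h1, h2⟩ := Finset.mem_filter.mp hchi
  set m := cod chi / p ^ d with hm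
  have hexp : 2 * (n + (p - 1) * p ^ k) = 2 * n + 2 * (p ^ k * (p - 1)) := by ring
  have hk : k + 1 ≤ 2 * (p ^ k * (p - 1)) := by
    have hp2 := hp.out.two_le
    have h0 : p ^ k * (p - 1) ≠ 0 := by
      have : 0 < p ^ k := pow_pos hp.out.pos _
      have : 0 < p - 1 := by omega
      positivity
    exact two_mul_ge (p := p) h0 (dvd_refl _)
  by_cases h3 : p ∣ m
  · rw [if_pos h3]
    obtain ⟨m', hm'⟩ := h3
    have h4 : cod chi / p ^ (d + 1) = m' := by
      rw [pow_succ, ← Nat.div_div_eq_div_mul, ← hm, hm']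
      exact Nat.mul_div_cancel_left _ hp.out.pos
    rw [h4, hm', hexp]
    push_cast
    have h5 : ((p : ℤ) * m') ^ (2 * n) - (p * m') ^ (2 * n + 2 * (p ^ k * (p - 1))) -
        p ^ (2 * n) * (m' : ℤ) ^ (2 * n) = - (p * m') ^ (2 * n + 2 * (p ^ k * (p - 1))) := by
      rw [mul_pow (p : ℤ) m' (2 * n)]
      ring
    rw [h5, dvd_neg, mul_pow]
    apply Dvd.dvd.mul_right
    exact pow_dvd_pow _ (by omega)
  · rw [if_neg h3, mul_zero, sub_zero, hexp, pow_add (m : ℤ)]
    have h5 : (m : ℤ) ^ (2 * n) - (m : ℤ) ^ (2 * n) * (m : ℤ) ^ (2 * (p ^ k * (p - 1))) =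
        - ((m : ℤ) ^ (2 * n) * ((m : ℤ) ^ (2 * (p ^ k * (p - 1))) - 1)) := by ring
    rw [h5, dvd_neg]
    apply Dvd.dvd.mul_left
    have h6 : m ^ (2 * (p ^ k * (p - 1))) ≡ 1 [MOD p ^ (k + 1)] :=
      unit_pow h3 (Dvd.dvd.mul_left (dvd_refl _) 2)
    have h7 := Nat.modEq_iff_dvd.mp h6.symm
    push_cast at h7
    exact h7

lemma numDefect_eq (d : ℕ) : (numDefect p d H : ℤ) = slope p d 0 H - slope p (d + 1) 0 H := by
  have h1 : numDefect p d H = ((Irr H).filter (fun chi => (cod chi).factorization p = d)).card := by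
    unfold numDefect
    rw [← Fintype.card_coe, ← Nat.card_eq_fintype_card]
    refine Nat.card_congr (Equiv.subtypeEquivRight fun chi => ?_)
    rw [Finset.mem_filter, mem_Irr]
    refine and_congr_right fun h => ?_
    have h' : IsIrrChar chi := h
    obtain ⟨h2, h3⟩ := dg_spec h'
    have h4 := cod_pos h'
    have h5 : (Nat.card H).factorization p =
        (dg chi).factorization p + (cod chi).factorization p := by
      rw [← cod_spec h', Nat.factorization_mul h3.ne' h4.ne']
      rfl
    constructor
    · rintro ⟨n, hn, h6⟩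
      have : n = dg chi := by
        rw [h2] at hn
        exact_mod_cast hn.symm
      subst this
      omega
    · intro h6
      exact ⟨dg chi, h2, by omega⟩
  have h2 : ∀ e : ℕ, slope p e 0 H = (((Irr H).filter (fun chi => p ^ e ∣ cod chi)).card : ℤ) := by
    intro e
    unfold slope
    simp
  have h3 : (Irr H).filter (fun chi => p ^ d ∣ cod chi) =
      (Irr H).filter (fun chi => (cod chi).factorization p = d) ∪
        (Irr H).filter (fun chi => p ^ (d + 1) ∣ cod chi) := by
    ext chi
    rw [Finset.mem_union, Finset.mem_filter, Finset.mem_filter, Finset.mem_filter]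
    constructor
    · rintro ⟨h4, h5⟩
      have h6 := (cod_pos (mem_Irr.mp h4)).ne'
      rw [hp.out.pow_dvd_iff_le_factorization h6] at h5
      rcases Nat.eq_or_lt_of_le h5 with h7 | h7
      · exact Or.inl ⟨h4, h7.symm⟩
      · exact Or.inr ⟨h4, (hp.out.pow_dvd_iff_le_factorization h6).mpr h7⟩
    · rintro (⟨h4, h5⟩ | ⟨h4, h5⟩)
      · have h6 := (cod_pos (mem_Irr.mp h4)).ne'
        exact ⟨h4, (hp.out.pow_dvd_iff_le_factorization h6).mpr h5.ge⟩
      · exact ⟨h4, (pow_dvd_pow p (Nat.le_succ d)).trans h5⟩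
  have h4 : Disjoint ((Irr H).filter (fun chi => (cod chi).factorization p = d))
      ((Irr H).filter (fun chi => p ^ (d + 1) ∣ cod chi)) := by
    rw [Finset.disjoint_left]
    intro chi h5 h6
    obtain ⟨h7, h8⟩ := Finset.mem_filter.mp h5
    obtain ⟨-, h9⟩ := Finset.mem_filter.mp h6
    have h10 := (cod_pos (mem_Irr.mp h7)).ne'
    rw [hp.out.pow_dvd_iff_le_factorization h10] at h9
    omega
  rw [h1, h2, h2, h3, Finset.card_union_of_disjoint h4]
  push_cast
  ring

end

variable {G : Type} [Group G]

/-- `slope` as a function of subgroups -/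
def slopeSub [Finite G] (p d n : ℕ) (H : Subgroup G) : ℤ :=
  letI : Fintype H := Fintype.ofFinite H
  slope p d n H

lemma alternatingSum_lin [Finite G] (f g h : Subgroup G → ℤ) (c : ℤ) :
    alternatingSum p G (fun H => f H - g H - c * h H) =
      alternatingSum p G f - alternatingSum p G g - c * alternatingSum p G h := by
  unfold alternatingSum
  have : Fintype (Quotient (chainSetoid p G)) := Fintype.ofFinite _
  simp only [finsum_eq_sum_of_fintype]
  rw [Finset.mul_sum, ← Finset.sum_sub_distrib, ← Finset.sum_sub_distrib]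
  refine Finset.sum_congr rfl fun c _ => ?_
  ring

lemma alternatingSum_dvd_zero [Finite G] {M : ℤ} (f : Subgroup G → ℤ) (h : ∀ H, M ∣ f H) :
    M ∣ alternatingSum p G f := by
  unfold alternatingSum
  have : Fintype (Quotient (chainSetoid p G)) := Fintype.ofFinite _
  rw [finsum_eq_sum_of_fintype]
  exact Finset.dvd_sum fun c _ => Dvd.dvd.mul_left (h _) _

/-- the properties which determine the slopes -/
def IsSlopeFamily (p : ℕ) (G : Type) [Group G] (f : ℕ → ℕ → ℤ) : Prop :=
  (∀ n : ℕ, (f 0 n : ℚ) = -surfaceChi p (n + 1) G) ∧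
  ∀ d n k : ℕ, (p : ℤ) ^ (k + 1) ∣
    f d n - f d (n + (p - 1) * p ^ k) - (p : ℤ) ^ (2 * n) * f (d + 1) n

theorem isSlopeFamily [Finite G] :
    IsSlopeFamily p G (fun d n => alternatingSum p G (slopeSub p d n)) := by
  constructor
  · intro n
    rw [surfaceChi_eq, neg_neg]
    have e : slopeSub p 0 n = fun H : Subgroup G => (surfaceCount (n + 1) H : ℤ) := by
      funext H
      letI : Fintype H := Fintype.ofFinite H
      change slope p 0 n H = _
      rw [slope_zero, surfaceCount_eq]
    change ((alternatingSum p G (slopeSub p 0 n) : ℤ) : ℚ) = _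
    rw [e]
  · intro d n k
    change _ ∣ alternatingSum p G (slopeSub p d n) -
      alternatingSum p G (slopeSub p d (n + (p - 1) * p ^ k)) -
      _ * alternatingSum p G (slopeSub p (d + 1) n)
    rw [← alternatingSum_lin]
    apply alternatingSum_dvd_zero
    intro H
    letI : Fintype H := Fintype.ofFinite H
    exact slope_dvd d n k

lemma eq_zero_of_pow_dvd {x : ℤ} (h : ∀ k : ℕ, (p : ℤ) ^ (k + 1) ∣ x) : x = 0 := by
  by_contra hx
  have h1 : |x| < (p : ℤ) ^ (x.natAbs + 1) := by
    rw [Int.abs_eq_natAbs]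
    have := Nat.lt_pow_self (n := x.natAbs) hp.out.one_lt
    have h2 : x.natAbs < p ^ (x.natAbs + 1) :=
      this.trans_le (Nat.pow_le_pow_right hp.out.pos (Nat.le_succ _))
    exact_mod_cast h2
  exact hx (Int.eq_zero_of_abs_lt_dvd (h _) h1)

theorem slopeFamily_unique {f g : ℕ → ℕ → ℤ} (hf : IsSlopeFamily p G f)
    (hg : IsSlopeFamily p G g) : f = g := by
  have key : ∀ d n, f d n = g d n := by
    intro d
    induction d with
    | zero =>
      intro n
      have := (hf.1 n).trans (hg.1 n).symm
      exact_mod_cast this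
    | succ d ih =>
      intro n
      have h1 : (p : ℤ) ^ (2 * n) * (f (d + 1) n - g (d + 1) n) = 0 := by
        apply eq_zero_of_pow_dvd (p := p)
        intro k
        have h2 := hf.2 d n k
        have h3 := hg.2 d n k
        rw [ih n, ih (n + (p - 1) * p ^ k)] at h2
        have h4 := dvd_sub h3 h2
        rwa [sub_sub_sub_cancel_left, ← mul_sub] at h4
      rcases mul_eq_zero.mp h1 with h2 | h2
      · exact absurd h2 (pow_ne_zero _ (by exact_mod_cast hp.out.ne_zero))
      · exact sub_eq_zero.mp h2
  funext d n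
  exact key d n

theorem sum_numDefect [Finite G] {f : ℕ → ℕ → ℤ} (hf : IsSlopeFamily p G f) (d : ℕ) :
    alternatingSum p G (fun H => (numDefect p d H : ℤ)) = f d 0 - f (d + 1) 0 := by
  rw [slopeFamily_unique hf isSlopeFamily]
  change _ = alternatingSum p G (slopeSub p d 0) - alternatingSum p G (slopeSub p (d + 1) 0)
  rw [← alternatingSum_sub]
  congr 1
  funext H
  letI : Fintype H := Fintype.ofFinite H
  exact numDefect_eq d

/-- the slopes vanish for large `d` -/
theorem slope_large [Finite G] {f : ℕ → ℕ → ℤ} (hf : IsSlopeFamily p G f) {d : ℕ}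
    (hd : (Nat.card G).factorization p < d) (n : ℕ) : f d n = 0 := by
  rw [slopeFamily_unique hf isSlopeFamily]
  change alternatingSum p G (slopeSub p d n) = 0
  have h0 : slopeSub p d n = fun _ : Subgroup G => (0 : ℤ) := by
    funext H
    unfold slopeSub slope
    apply Finset.sum_eq_zero
    intro chi hchi
    exfalso
    letI : Fintype H := Fintype.ofFinite H
    obtain ⟨h1, h2⟩ := Finset.mem_filter.mp hchi
    have h3 : p ^ d ∣ Nat.card G := by
      refine (h2.trans ?_).trans (Subgroup.card_subgroup_dvd_card H)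
      exact ⟨dg chi, by rw [mul_comm]; exact (cod_spec (mem_Irr.mp h1)).symm⟩
    rw [hp.out.pow_dvd_iff_le_factorization Nat.card_pos.ne'] at h3
    omega
  rw [h0]
  unfold alternatingSum
  simp

/-- **Dade's sums.** -/
theorem dade_iff [Finite G] {f : ℕ → ℕ → ℤ} (hf : IsSlopeFamily p G f) :
    (∀ d : ℕ, 1 ≤ d → alternatingSum p G (fun H => (numDefect p d H : ℤ)) = 0) ↔
      ∀ d : ℕ, 1 ≤ d → f d 0 = 0 := by
  constructor
  · intro h
    have key : ∀ j d : ℕ, 1 ≤ d → (Nat.card G).factorization p < d + j → f d 0 = 0 := by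
      intro j
      induction j with
      | zero => intro d _ h2; exact slope_large hf (by simpa using h2) 0
      | succ j ih =>
        intro d h1 h2
        have h3 := h d h1
        rw [sum_numDefect hf, ih (d + 1) (by omega) (by omega), sub_zero] at h3
        exact h3
    intro d hd
    exact key ((Nat.card G).factorization p + 1) d hd (by omega)
  · intro h d hd
    rw [sum_numDefect hf, h d hd, h (d + 1) (by omega), sub_zero]

/-- the Knörr–Robinson form of Alperin's weight conjecture is the first condition -/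
theorem kr_iff [Finite G] {f : ℕ → ℕ → ℤ} (hf : IsSlopeFamily p G f) :
    alternatingSum p G (fun H => (Nat.card (ConjClasses H) : ℤ)) = (numDefectZero p G : ℤ) ↔
      f 1 0 = 0 := by
  have h1 : f 0 0 = alternatingSum p G (fun H => (Nat.card (ConjClasses H) : ℤ)) := by
    have h2 := hf.1 0
    rw [surfaceChi_eq, neg_neg, sum_surfaceCount_one] at h2
    exact_mod_cast h2
  have h3 : alternatingSum p G (fun H => (numDefect p 0 H : ℤ)) = (numDefectZero p G : ℤ) := by
    have hz : ∀ H : Subgroup G, numDefect p 0 H = numDefectZero p H := by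
      intro H
      unfold numDefect numDefectZero
      refine Nat.card_congr (Equiv.subtypeEquivRight fun chi => ?_)
      refine and_congr_right fun _ => exists_congr fun n => and_congr_right fun _ => ?_
      rw [add_zero]
      exact eq_comm
    have e : (fun H : Subgroup G => (numDefect p 0 H : ℤ)) =
        fun H : Subgroup G => (numDefectZero p H : ℤ) := funext fun H => by rw [hz]
    rw [e, alternatingSum_single _ (fun σ hσ hne => by
      rw [defectZero_chain hσ hne, Nat.cast_zero])]
    rw [numDefectZero_congr (Subgroup.topEquiv : (⊤ : Subgroup G) ≃* G)]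
  have h4 := sum_numDefect hf 0
  rw [h3, h1] at h4
  rw [h4]
  constructor
  · intro h; linarith
  · intro h; rw [h]; ring

end

end Pool.Agent.Y63.KR
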