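import Mathlib

/-!
# Chains of `p`-subgroups and alternating sums over them
-/

open scoped Classical

noncomputable section

namespace Pool.Agent.Y63.KR

section

variable {G : Type} [Group G]

/-- `σ` is (the set of members of) a chain of nontrivial `p`-subgroups of `G`. The empty chain is
allowed. -/
structure IsPChain (p : ℕ) (σ : Set (Subgroup G)) : Prop where
  chain : IsChain (· ≤ ·) σ
  isPGroup : ∀ P ∈ σ, IsPGroup p P
  ne_bot : ∀ P ∈ σ, P ≠ ⊥

/-- The stabiliser `G_σ` of a chain `σ`, the intersection of the normalisers of its members. -/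
def chainStabilizer (σ : Set (Subgroup G)) : Subgroup G :=
  ⨅ P ∈ σ, Subgroup.normalizer (P : Set G)

/-- The conjugate `g P g⁻¹`. -/
def conjSub (g : G) (P : Subgroup G) : Subgroup G := P.map (MulAut.conj g).toMonoidHom

theorem conjSub_one (P : Subgroup G) : conjSub 1 P = P := by
  ext x; simp [conjSub, Subgroup.mem_map]

theorem conjSub_mul (g h : G) (P : Subgroup G) : conjSub (g * h) P = conjSub g (conjSub h P) := by
  unfold conjSub
  rw [Subgroup.map_map]
  congr 1
  ext x
  simp [mul_assoc]

end

theorem conj_equivalence (p : ℕ) (G : Type) [Group G] :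
    Equivalence (fun σ τ : {σ : Set (Subgroup G) // IsPChain p σ} =>
      ∃ g : G, τ.1 = conjSub g '' σ.1) :=
  { refl := fun σ => ⟨1, by
      have : (conjSub (1 : G)) = id := funext conjSub_one
      rw [this, Set.image_id]⟩
    symm := by
      rintro σ τ ⟨g, hg⟩
      refine ⟨g⁻¹, ?_⟩
      rw [hg, ← Set.image_comp]
      have : conjSub g⁻¹ ∘ conjSub g = id := funext fun P => by
        rw [Function.comp_apply, ← conjSub_mul, inv_mul_cancel, conjSub_one, id]
      rw [this, Set.image_id]
    trans := by
      rintro σ τ υ ⟨g, hg⟩ ⟨h, hh⟩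
      refine ⟨h * g, ?_⟩
      rw [hh, hg, ← Set.image_comp]
      congr 1
      exact (funext fun P => conjSub_mul h g P).symm }

/-- Conjugacy of chains. -/
def chainSetoid (p : ℕ) (G : Type) [Group G] : Setoid {σ : Set (Subgroup G) // IsPChain p σ} where
  r σ τ := ∃ g : G, τ.1 = conjSub g '' σ.1
  iseqv := conj_equivalence p G

/-- The alternating sum `∑_σ (-1)^|σ| f(G_σ)` over representatives `σ` of the `G`-conjugacy classes
of chains of nontrivial `p`-subgroups of `G`, the empty chain included, where `|σ|` is the number of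
members of `σ`. -/
def alternatingSum (p : ℕ) (G : Type) [Group G] (f : Subgroup G → ℤ) : ℤ :=
  ∑ᶠ c : Quotient (chainSetoid p G), (-1) ^ c.out.1.ncard * f (chainStabilizer c.out.1)

/-- The nontrivial `p`-subgroups of `G` normalised by all elements of `K`. -/
def fixedPoset (p : ℕ) {G : Type} [Group G] (K : Set G) : Set (Subgroup G) :=
  {P | IsPGroup p P ∧ P ≠ ⊥ ∧ ∀ x ∈ K, conjSub x P = P}

/-- The Euler characteristic of (the order complex of) a finite set `X` of subgroups, ordered by
inclusion: the sum of `(-1)^(n-1)` over the nonempty chains with `n` members. -/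
def eulerChar {G : Type} [Group G] (X : Set (Subgroup G)) : ℤ :=
  ∑ᶠ σ : {σ : Set (Subgroup G) // σ ⊆ X ∧ σ.Nonempty ∧ IsChain (· ≤ ·) σ}, (-1) ^ (σ.1.ncard + 1)

end Pool.Agent.Y63.KR
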