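import Pool.Agent.Y63.KR.Surf

/-!
# Divisibility of the number of homomorphisms from a surface group
-/

open scoped BigOperators Classical

set_option linter.unusedSectionVars false

noncomputable section

namespace Pool.Agent.Y63.KR

variable {G T : Type} [Group G] [Group T]

/-- the functions `f : T → G` with `f t = D t * f 1` for a homomorphism `D` with values in `A` -/
def affine (A : Subgroup G) (hA : A.Normal) (hc : ∀ a ∈ A, ∀ b ∈ A, a * b = b * a)
    (T : Type) [Group T] : Subgroup (T → G) where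
  carrier := {f | ∃ D : T →* G, (∀ t, D t ∈ A) ∧ ∀ t, f t = D t * f 1}
  one_mem' := ⟨1, fun t => by simp [A.one_mem], fun t => by simp⟩
  mul_mem' := by
    rintro f1 f2 ⟨D1, h1, h1'⟩ ⟨D2, h2, h2'⟩
    refine ⟨{ toFun := fun t => D1 t * (f1 1 * D2 t * (f1 1)⁻¹), map_one' := by simp,
              map_mul' := ?_ }, ?_, ?_⟩
    · intro s t
      have h3 := hc _ (h1 t) _ (hA.conj_mem _ (h2 s) (f1 1))
      calc D1 (s * t) * (f1 1 * D2 (s * t) * (f1 1)⁻¹)
          = D1 s * (D1 t * (f1 1 * D2 s * (f1 1)⁻¹)) * (f1 1 * D2 t * (f1 1)⁻¹) := by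
            rw [map_mul, map_mul]; group
        _ = D1 s * ((f1 1 * D2 s * (f1 1)⁻¹) * D1 t) * (f1 1 * D2 t * (f1 1)⁻¹) := by rw [h3]
        _ = _ := by group
    · intro t
      exact A.mul_mem (h1 t) (hA.conj_mem _ (h2 t) _)
    · intro t
      change f1 t * f2 t = D1 t * (f1 1 * D2 t * (f1 1)⁻¹) * (f1 1 * f2 1)
      rw [h1' t, h2' t]
      group
  inv_mem' := by
    rintro f ⟨D, h1, h2⟩
    refine ⟨{ toFun := fun t => (f 1)⁻¹ * (D t)⁻¹ * f 1, map_one' := by simp,
              map_mul' := ?_ }, ?_, ?_⟩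
    · intro s t
      have h3 := hc _ (h1 s) _ (h1 t)
      rw [map_mul, h3]
      group
    · intro t
      have := hA.conj_mem _ (A.inv_mem (h1 t)) (f 1)⁻¹
      simpa using this
    · intro t
      change (f t)⁻¹ = (f 1)⁻¹ * (D t)⁻¹ * f 1 * (f 1)⁻¹
      rw [h2 t]
      group

/-- the number of zeros of an affine function -/
lemma card_zero [Finite T] [Finite G] {A : Subgroup G} {hA : A.Normal}
    {hc : ∀ a ∈ A, ∀ b ∈ A, a * b = b * a} {f : T → G} (hf : f ∈ affine A hA hc T)
    {m : ℕ} (hT : Nat.card T = Nat.card A ^ (m + 1)) :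
    Nat.card A ^ m ∣ Nat.card {t : T // f t = 1} := by
  obtain ⟨D, h1, h2⟩ := hf
  by_cases hne : Nonempty {t : T // f t = 1}
  · obtain ⟨t0, ht0⟩ := hne
    have e : Nat.card {t : T // f t = 1} = Nat.card D.ker := by
      refine Nat.card_congr (Equiv.subtypeEquiv (Equiv.mulLeft t0⁻¹) fun t => ?_)
      rw [Equiv.coe_mulLeft, MonoidHom.mem_ker, map_mul, map_inv, h2 t]
      rw [h2 t0] at ht0
      constructor
      · intro h
        have : D t = D t0 := by
          rw [eq_inv_of_mul_eq_one_left h, eq_inv_of_mul_eq_one_left ht0]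
        rw [this]; group
      · intro h
        have : D t = D t0 := by
          rw [inv_mul_eq_one] at h
          exact h.symm
        rw [this, ht0]
    rw [e]
    have h3 : Nat.card D.ker * Nat.card D.range = Nat.card T := by
      rw [← Subgroup.index_ker]
      exact Subgroup.card_mul_index _
    have h4 : D.range ≤ A := by
      rintro _ ⟨t, rfl⟩
      exact h1 t
    obtain ⟨k, hk⟩ := Subgroup.card_dvd_of_le h4
    have h5 : 0 < Nat.card D.range := Nat.card_pos
    refine ⟨k, ?_⟩
    have h6 : Nat.card D.ker * Nat.card D.range = (Nat.card A ^ m * k) * Nat.card D.range := by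
      rw [h3, hT, pow_succ]
      conv_lhs => rw [hk]
      rw [hk]
      ring
    exact Nat.eq_of_mul_eq_mul_right h5 h6
  · have : Nat.card {t : T // f t = 1} = 0 := by
      rw [Nat.card_eq_zero]
      exact Or.inl (not_nonempty_iff.mp hne)
    rw [this]
    exact dvd_zero _

/-- **Divisibility.** If `A` is an abelian normal subgroup, `|A|^(2g-1)` divides the number of
homomorphisms from the surface group of genus `g` (here `g + 1` instead of `g`). -/
theorem dvd_numHom [Finite G] (A : Subgroup G) (hA : A.Normal)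
    (hc : ∀ a ∈ A, ∀ b ∈ A, a * b = b * a) (g : ℕ) :
    Nat.card A ^ (2 * g + 1) ∣ numHom (g + 1) G := by
  have : Fintype G := Fintype.ofFinite G
  let C := Fin (g + 1) → (G ⧸ A) × (G ⧸ A)
  have : Fintype C := Fintype.ofFinite _
  let π : (Fin (g + 1) → G × G) → C := fun q i => ((q i).1, (q i).2)
  have e : {q : Fin (g + 1) → G × G // surfaceWord q = 1} ≃
      (Σ c : C, {q : Fin (g + 1) → G × G // surfaceWord q = 1 ∧ π q = c}) :=
    { toFun := fun q => ⟨π q.1, q.1, q.2, rfl⟩
      invFun := fun s => ⟨s.2.1, s.2.2.1⟩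
      left_inv := fun q => rfl
      right_inv := by rintro ⟨c, q, h1, rfl⟩; rfl }
  unfold numHom
  rw [Nat.card_congr e, Nat.card_sigma]
  refine Finset.dvd_sum fun c _ => ?_
  -- the base point
  let q0 : Fin (g + 1) → G × G := fun i => ((c i).1.out, (c i).2.out)
  let T := Fin (g + 1) → A × A
  let f : T → G := fun t => surfaceWord fun i => ((q0 i).1 * (t i).1, (q0 i).2 * (t i).2)
  have hf : f ∈ affine A hA hc T := by
    have hgen : ∀ (x : G) (P : T →* A),
        (fun t : T => x * (P t : G)) ∈ affine A hA hc T := by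
      intro x P
      refine ⟨{ toFun := fun t => x * (P t : G) * x⁻¹, map_one' := by simp,
                map_mul' := by intro s t; simp }, ?_, ?_⟩
      · intro t
        exact hA.conj_mem _ (P t).2 x
      · intro t
        change x * (P t : G) = x * (P t : G) * x⁻¹ * (x * (P 1 : G))
        simp
    have h1 : f = (List.ofFn fun i : Fin (g + 1) =>
        (fun t : T => (q0 i).1 * ((t i).1 : G)) * (fun t : T => (q0 i).2 * ((t i).2 : G)) *
          (fun t : T => (q0 i).1 * ((t i).1 : G))⁻¹ * (fun t : T => (q0 i).2 * ((t i).2 : G))⁻¹).prod := by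
      funext t
      rw [Pi.list_prod_apply]
      simp only [f, surfaceWord, List.map_ofFn]
      rfl
    rw [h1]
    apply Subgroup.list_prod_mem
    intro x hx
    rw [List.mem_ofFn] at hx
    obtain ⟨i, rfl⟩ := hx
    have ha := hgen (q0 i).1 ((MonoidHom.fst A A).comp
      (Pi.evalMonoidHom (fun _ : Fin (g + 1) => A × A) i))
    have hb := hgen (q0 i).2 ((MonoidHom.snd A A).comp
      (Pi.evalMonoidHom (fun _ : Fin (g + 1) => A × A) i))
    exact Subgroup.mul_mem _ (Subgroup.mul_mem _ (Subgroup.mul_mem _ ha hb)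
      (Subgroup.inv_mem _ ha)) (Subgroup.inv_mem _ hb)
  have hT : Nat.card T = Nat.card A ^ (2 * g + 1 + 1) := by
    change Nat.card (Fin (g + 1) → A × A) = _
    rw [Nat.card_fun, Nat.card_prod, Nat.card_eq_fintype_card (α := Fin (g + 1)), Fintype.card_fin,
      ← pow_two, ← pow_mul]
    congr 1
  have h2 := card_zero hf hT
  have h3 : Nat.card {t : T // f t = 1} =
      Nat.card {q : Fin (g + 1) → G × G // surfaceWord q = 1 ∧ π q = c} := by
    have hout1 : ∀ i, (((q0 i).1 : G) : G ⧸ A) = (c i).1 := fun i => Quotient.out_eq _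
    have hout2 : ∀ i, (((q0 i).2 : G) : G ⧸ A) = (c i).2 := fun i => Quotient.out_eq _
    refine Nat.card_congr
      { toFun := fun t => ⟨fun i => ((q0 i).1 * (t.1 i).1, (q0 i).2 * (t.1 i).2), t.2, ?_⟩
        invFun := fun q => ⟨fun i => (⟨(q0 i).1⁻¹ * (q.1 i).1, ?_⟩, ⟨(q0 i).2⁻¹ * (q.1 i).2, ?_⟩), ?_⟩
        left_inv := ?_
        right_inv := ?_ }
    · funext i
      refine Prod.ext ?_ ?_
      · change (((q0 i).1 * (t.1 i).1 : G) : G ⧸ A) = (c i).1
        rw [← hout1 i, QuotientGroup.eq]
        simp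
      · change (((q0 i).2 * (t.1 i).2 : G) : G ⧸ A) = (c i).2
        rw [← hout2 i, QuotientGroup.eq]
        simp
    · rw [← QuotientGroup.eq, hout1 i]
      exact (congrArg Prod.fst (congrFun q.2.2 i)).symm
    · rw [← QuotientGroup.eq, hout2 i]
      exact (congrArg Prod.snd (congrFun q.2.2 i)).symm
    · have := q.2.1
      simp only [f]
      simpa using this
    · intro t
      apply Subtype.ext
      funext i
      simp
    · intro q
      apply Subtype.ext
      funext i
      simp
  rw [← h3]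
  exact h2

end Pool.Agent.Y63.KR
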