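import Pool.Agent.Y63.KR.Basic

/-!
# Counting classes fixed by a power map, over the chains of `p`-subgroups
-/

open scoped Classical BigOperators

set_option linter.unusedSectionVars false
set_option linter.style.haveILetI false

noncomputable section

namespace Pool.Agent.Y63.KR

/-- The number of conjugacy classes `C` of `H` with `C^s = C`. -/
def numFixed (s : ℕ) (H : Type) [Group H] : ℕ :=
  Nat.card {c : ConjClasses H // ∃ x : H, ConjClasses.mk x = c ∧ IsConj x (x ^ s)}

/-- The number of conjugacy classes `C` of `p`-regular elements of `H` with `C^s = C`. -/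
def numFixedRegular (p s : ℕ) (H : Type) [Group H] : ℕ :=
  Nat.card {c : ConjClasses H // ∃ x : H, ConjClasses.mk x = c ∧ IsConj x (x ^ s) ∧
    ¬ p ∣ orderOf x}

/-- classes fixed by the `s`-th power and with the property `R` -/
def numR (s : ℕ) (H : Type) [Group H] (R : H → Prop) : ℕ :=
  Nat.card {c : ConjClasses H // ∃ x : H, ConjClasses.mk x = c ∧ IsConj x (x ^ s) ∧ R x}

/-- the indicator of a proposition -/
def bz (P : Prop) : ℤ := if P then 1 else 0

lemma bz_pos {P : Prop} (h : P) : bz P = 1 := if_pos h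

lemma bz_neg {P : Prop} (h : ¬ P) : bz P = 0 := if_neg h

lemma bz_congr {P Q : Prop} (h : P ↔ Q) : bz P = bz Q := by rw [propext h]

lemma finsum_bz {α : Type} [Finite α] (P : α → Prop) :
    ∑ᶠ a : α, bz (P a) = (Nat.card {a : α // P a} : ℤ) := by
  have : Fintype α := Fintype.ofFinite α
  unfold bz
  rw [finsum_eq_sum_of_fintype, Finset.sum_boole, Nat.card_eq_fintype_card, Fintype.card_subtype]

lemma isConj_pow {H : Type} [Group H] {x y : H} (h : IsConj x y) (s : ℕ) :
    IsConj (x ^ s) (y ^ s) := by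
  obtain ⟨c, rfl⟩ := isConj_iff.mp h
  rw [isConj_iff]
  exact ⟨c, by rw [conj_pow]⟩

theorem card_mul_numR (s : ℕ) (H : Type) [Group H] [Finite H] (R : H → Prop)
    (hR : ∀ x y : H, IsConj x y → (R x ↔ R y)) :
    Nat.card H * numR s H R =
      Nat.card {q : H × H // q.2 * q.1 * q.2⁻¹ = q.1 ^ s ∧ R q.1} := by
  have : Fintype H := Fintype.ofFinite H
  have hr : ∀ x y : H, IsConj x y → ((IsConj x (x ^ s) ∧ R x) ↔ (IsConj y (y ^ s) ∧ R y)) := by
    intro x y h
    rw [hR x y h]
    constructor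
    · rintro ⟨h1, h2⟩
      exact ⟨(h.symm.trans h1).trans (isConj_pow h s), h2⟩
    · rintro ⟨h1, h2⟩
      exact ⟨(h.trans h1).trans (isConj_pow h s).symm, h2⟩
  have h := orbit_sum (G := ConjAct H) (IsConj.setoid H) (by
    intro x y
    change IsConj x y ↔ _
    rw [isConj_iff]
    rfl) (fun x : H => bz (IsConj x (x ^ s) ∧ R x)) (fun x y hxy => bz_congr (hr x y hxy))
  have h2 : ∑ᶠ c : Quotient (IsConj.setoid H), bz (IsConj (c.out : H) ((c.out : H) ^ s) ∧ R c.out) =
      (numR s H R : ℤ) := by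
    have hfin : Finite (Quotient (IsConj.setoid H)) := inferInstance
    rw [finsum_bz (fun c : Quotient (IsConj.setoid H) => IsConj (c.out : H) ((c.out : H) ^ s) ∧ R c.out)]
    unfold numR
    norm_cast
    refine Nat.card_congr (Equiv.subtypeEquivRight fun c => ?_)
    constructor
    · intro h3
      exact ⟨c.out, Quotient.out_eq c, h3⟩
    · rintro ⟨x, hx, h3⟩
      have h4 : IsConj x c.out := by
        have : (Quotient.mk (IsConj.setoid H) x) = Quotient.mk (IsConj.setoid H) c.out :=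
          hx.trans (Quotient.out_eq c).symm
        exact Quotient.eq.mp this
      exact (hr _ _ h4).mp h3
  rw [h2] at h
  have hcard : Nat.card (ConjAct H) = Nat.card H := rfl
  rw [hcard] at h
  have e : {q : H × H // q.2 * q.1 * q.2⁻¹ = q.1 ^ s ∧ R q.1} ≃
      (Σ x : H, {y : H // y * x * y⁻¹ = x ^ s ∧ R x}) :=
    { toFun := fun q => ⟨q.1.1, ⟨q.1.2, q.2⟩⟩
      invFun := fun t => ⟨(t.1, t.2.1), t.2.2⟩
      left_inv := fun q => rfl
      right_inv := fun t => rfl }
  rw [Nat.card_congr e, Nat.card_sigma]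
  have h5 : ∀ x : H, (Nat.card (MulAction.stabilizer (ConjAct H) x) : ℤ) *
      bz (IsConj x (x ^ s) ∧ R x) =
      (Nat.card {y : H // y * x * y⁻¹ = x ^ s ∧ R x} : ℤ) := by
    intro x
    by_cases h6 : IsConj x (x ^ s) ∧ R x
    · rw [bz_pos h6, mul_one]
      obtain ⟨y0, hy0⟩ := isConj_iff.mp h6.1
      norm_cast
      refine Nat.card_congr ?_
      refine (Equiv.subtypeEquiv ((ConjAct.ofConjAct (G := H)).toEquiv.trans
        (Equiv.mulLeft y0)) fun y => ?_)
      rw [MulAction.mem_stabilizer_iff, ConjAct.smul_def]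
      change _ ↔ (y0 * (ConjAct.ofConjAct y)) * x * (y0 * (ConjAct.ofConjAct y))⁻¹ = x ^ s ∧ R x
      constructor
      · intro h7
        refine ⟨?_, h6.2⟩
        rw [← hy0]
        conv_rhs => rw [← h7]
        group
      · rintro ⟨h7, -⟩
        rw [← hy0] at h7
        have : y0 * (ConjAct.ofConjAct y * x * (ConjAct.ofConjAct y)⁻¹) * y0⁻¹ = y0 * x * y0⁻¹ := by
          rw [← h7]; group
        exact mul_left_cancel (mul_right_cancel this)
    · rw [bz_neg h6, mul_zero]
      symm
      norm_cast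
      rw [Nat.card_eq_zero]
      left
      constructor
      rintro ⟨y, hy, hRx⟩
      exact h6 ⟨isConj_iff.mpr ⟨y, hy⟩, hRx⟩
  have h8 : ((Nat.card H * numR s H R : ℕ) : ℤ) =
      ((∑ x : H, Nat.card {y : H // y * x * y⁻¹ = x ^ s ∧ R x} : ℕ) : ℤ) := by
    push_cast
    rw [h]
    exact Finset.sum_congr rfl fun x _ => h5 x
  exact_mod_cast h8

lemma numR_congr (s : ℕ) {H K : Type} [Group H] [Group K] [Finite H] [Finite K] (e : H ≃* K)
    (R : H → Prop) (S : K → Prop) (hR : ∀ x y : H, IsConj x y → (R x ↔ R y))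
    (hRS : ∀ x, R x ↔ S (e x)) : numR s H R = numR s K S := by
  have hS : ∀ x y : K, IsConj x y → (S x ↔ S y) := by
    intro x y hxy
    have h1 := hRS (e.symm x)
    have h2 := hRS (e.symm y)
    rw [e.apply_symm_apply] at h1 h2
    rw [← h1, ← h2]
    apply hR
    obtain ⟨c, rfl⟩ := isConj_iff.mp hxy
    exact isConj_iff.mpr ⟨e.symm c, by simp⟩
  have h1 := card_mul_numR s H R hR
  have h2 := card_mul_numR s K S hS
  have h3 : Nat.card {q : H × H // q.2 * q.1 * q.2⁻¹ = q.1 ^ s ∧ R q.1} =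
      Nat.card {q : K × K // q.2 * q.1 * q.2⁻¹ = q.1 ^ s ∧ S q.1} := by
    refine Nat.card_congr (Equiv.subtypeEquiv (Equiv.prodCongr e.toEquiv e.toEquiv) fun q => ?_)
    change _ ↔ e q.2 * e q.1 * (e q.2)⁻¹ = (e q.1) ^ s ∧ S (e q.1)
    rw [← hRS, ← map_inv, ← map_mul, ← map_mul, ← map_pow, e.injective.eq_iff]
  rw [h3, ← h2, Nat.card_congr e.toEquiv] at h1
  exact Nat.eq_of_mul_eq_mul_left Nat.card_pos h1

variable {p : ℕ} {G : Type} [Group G]

/-- the alternating sum of the chains (empty chain included) normalised by `K` -/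
def W (p : ℕ) {G : Type} [Group G] (K : Set G) : ℤ :=
  ∑ᶠ σ : {σ : Set (Subgroup G) // IsPChain p σ},
      (-1 : ℤ) ^ σ.1.ncard * (if ∀ P ∈ σ.1, ∀ x ∈ K, conjSub x P = P then 1 else 0)

theorem main_count [Finite G] (f : Subgroup G → ℤ) (hf : IsoInv f) {T : Type} [Fintype T]
    (K : T → Set G) (h : ∀ H : Subgroup G, (Nat.card H : ℤ) * f H =
      (Nat.card {t : T // K t ⊆ H} : ℤ)) :
    (Nat.card G : ℤ) * alternatingSum p G f = ∑ t : T, W p (K t) := by
  have : Fintype {σ : Set (Subgroup G) // IsPChain p σ} := Fintype.ofFinite _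
  rw [card_mul_alternatingSum f hf]
  unfold W
  simp only [finsum_eq_sum_of_fintype]
  rw [Finset.sum_comm]
  refine Finset.sum_congr rfl fun σ _ => ?_
  rw [h, ← Finset.mul_sum]
  congr 1
  rw [Finset.sum_boole, Nat.card_eq_fintype_card, Fintype.card_subtype]
  congr 2
  ext t
  simp only [Finset.mem_filter, Finset.mem_univ, true_and]
  constructor
  · intro h1 P hP x hx
    exact mem_chainStabilizer.mp (h1 hx) P hP
  · intro h1 x hx
    exact mem_chainStabilizer.mpr fun P hP => h1 P hP x hx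

/-- the pairs `(x, y)` with `y x y⁻¹ = x ^ s` -/
abbrev TwPair (s : ℕ) (G : Type) [Group G] : Type := {q : G × G // q.2 * q.1 * q.2⁻¹ = q.1 ^ s}

/-- if `p` divides the order of `x`, the pair does not contribute -/
theorem W_eq_zero [Fact p.Prime] [Finite G] {s : ℕ} {x y : G} (h : y * x * y⁻¹ = x ^ s)
    (hp : p ∣ orderOf x) : W p ({x, y} : Set G) = 0 := by
  have : Fintype {σ : Set (Subgroup G) // IsPChain p σ} := Fintype.ofFinite _
  unfold W
  rw [finsum_eq_sum_of_fintype]
  set m := orderOf x / p ^ (orderOf x).factorization p with hm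
  have hx0 : orderOf x ≠ 0 := (orderOf_pos x).ne'
  have hmv : p ^ (orderOf x).factorization p * m = orderOf x := Nat.ordProj_mul_ordCompl_eq_self _ _
  have hm0 : m ≠ 0 := by
    intro h1
    rw [h1, mul_zero] at hmv
    exact hx0 hmv.symm
  have hord : orderOf (x ^ m) = p ^ (orderOf x).factorization p := by
    rw [orderOf_pow_of_dvd hm0 ⟨_, by rw [mul_comm]; exact hmv.symm⟩]
    exact Nat.div_eq_of_eq_mul_left (Nat.pos_of_ne_zero hm0) hmv.symm
  have hv : (orderOf x).factorization p ≠ 0 := by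
    have := (Fact.out : p.Prime).factorization_pos_of_dvd hx0 hp
    omega
  have hconj : ∀ z : G, (∃ k : ℕ, z * x * z⁻¹ = x ^ k) →
      conjSub z (Subgroup.zpowers (x ^ m)) = Subgroup.zpowers (x ^ m) := by
    rintro z ⟨k, hk⟩
    have hle : conjSub z (Subgroup.zpowers (x ^ m)) ≤ Subgroup.zpowers (x ^ m) := by
      unfold conjSub
      rw [MonoidHom.map_zpowers, Subgroup.zpowers_le]
      change z * x ^ m * z⁻¹ ∈ _
      rw [← conj_pow, hk, ← pow_mul, mul_comm, pow_mul]
      exact Subgroup.pow_mem _ (Subgroup.mem_zpowers _) _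
    have hcard : Nat.card (conjSub z (Subgroup.zpowers (x ^ m))) =
        Nat.card (Subgroup.zpowers (x ^ m)) :=
      Nat.card_congr (Subgroup.equivMapOfInjective _ _ (MulAut.conj z).injective).toEquiv.symm
    exact Subgroup.eq_of_le_of_card_ge hle hcard.ge
  refine sum_eq_zero (U := Subgroup.zpowers (x ^ m)) ?_ ?_ ?_ ?_
  · apply IsPGroup.of_card (n := (orderOf x).factorization p)
    rw [Nat.card_zpowers, hord]
  · intro h1
    rw [Subgroup.zpowers_eq_bot] at h1
    rw [h1, orderOf_one] at hord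
    have : 1 < p ^ (orderOf x).factorization p := Nat.one_lt_pow hv (Fact.out : p.Prime).one_lt
    omega
  · rw [Subgroup.zpowers_le]
    exact Subgroup.pow_mem _ (Subgroup.subset_closure (by simp)) _
  · rintro z (rfl | rfl)
    · exact hconj _ ⟨1, by group⟩
    · exact hconj _ ⟨s, h⟩

end Pool.Agent.Y63.KR
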