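import Pool.Agent.Y63.KR.Chi

/-!
# Weights and homomorphisms from surface groups
-/

open scoped BigOperators Classical
open Pool.Agent.Y63.AWC

set_option linter.unusedSectionVars false

noncomputable section

namespace Pool.Agent.Y63.KR

/-- `∑_Q |Q| |Hom(Π_g, N_G(Q)/Q)|`, where `Q` runs over all `p`-subgroups of `G` and `Π_g` is the
fundamental group of the closed orientable surface of genus `g`. -/
def weightHom (p g : ℕ) (G : Type) [Group G] : ℕ :=
  ∑ᶠ Q : {Q : Subgroup G // IsPGroup p Q},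
    Nat.card Q.1 * numHom g (Subgroup.normalizer (Q.1 : Set G) ⧸
      Q.1.subgroupOf (Subgroup.normalizer (Q.1 : Set G)))

/-- The number of homomorphisms `ℤ[1/p] × ℤ → G`, that is, of the commuting pairs `(x, y)` such that
the order of `x` is prime to `p`. -/
def regularPairs (p : ℕ) (G : Type) [Group G] : ℕ :=
  Nat.card {q : G × G // ¬ p ∣ orderOf q.1 ∧ q.1 * q.2 = q.2 * q.1}

section

variable {p : ℕ} [hp : Fact p.Prime] {G : Type} [Group G]

theorem weight_mod [Finite G] {N n : ℕ} (hn0 : n ≠ 0) (hn : p ^ N * (p - 1) ∣ n) :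
    (p : ℤ) ^ (N + 1) ∣ (weightHom p (n + 1) G : ℤ) - (Nat.card G * numWeights p G : ℕ) := by
  have : Fintype {Q : Subgroup G // IsPGroup p Q} := Fintype.ofFinite _
  rw [card_mul_numWeights]
  unfold weightHom
  rw [finsum_eq_sum_of_fintype, finsum_eq_sum_of_fintype]
  push_cast
  rw [← Finset.sum_sub_distrib]
  refine Finset.dvd_sum fun Q _ => ?_
  have h1 := card_mul_surfaceCount (G := Subgroup.normalizer (Q.1 : Set G) ⧸
      Q.1.subgroupOf (Subgroup.normalizer (Q.1 : Set G))) n
  have h2 : Nat.card Q.1 * Nat.card (Subgroup.normalizer (Q.1 : Set G) ⧸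
      Q.1.subgroupOf (Subgroup.normalizer (Q.1 : Set G))) =
      Nat.card (Subgroup.normalizer (Q.1 : Set G)) := by
    rw [Subgroup.card_eq_card_quotient_mul_card_subgroup
      (Q.1.subgroupOf (Subgroup.normalizer (Q.1 : Set G))), mul_comm]
    congr 1
    exact Nat.card_congr (Subgroup.subgroupOfEquivOfLe Subgroup.le_normalizer).toEquiv.symm
  have h3 : Nat.card Q.1 * numHom (n + 1) (Subgroup.normalizer (Q.1 : Set G) ⧸
      Q.1.subgroupOf (Subgroup.normalizer (Q.1 : Set G))) =
      Nat.card (Subgroup.normalizer (Q.1 : Set G)) *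
        surfaceCount (n + 1) (Subgroup.normalizer (Q.1 : Set G) ⧸
          Q.1.subgroupOf (Subgroup.normalizer (Q.1 : Set G))) := by
    rw [← h1, ← h2]
    ring
  have h4 := congrArg (Nat.cast : ℕ → ℤ) h3
  push_cast at h4
  rw [h4, ← mul_sub]
  exact Dvd.dvd.mul_left (surfaceCount_mod hn0 hn) _

/-- **Alperin's weight conjecture by homomorphisms.** -/
theorem awc_iff [Finite G] :
    numRegularClasses p G = numWeights p G ↔
      ∀ N : ℕ, ∃ M : ℕ, ∀ g : ℕ, 2 ≤ g → p ^ M * (p - 1) ∣ g - 1 →
        (p : ℤ) ^ N ∣ (weightHom p g G : ℤ) - (regularPairs p G : ℤ) := by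
  have hp1 : (1 : ℤ) < p := by exact_mod_cast hp.out.one_lt
  have hp2 := hp.out.two_le
  have hreg : Nat.card G * numRegularClasses p G = regularPairs p G :=
    card_mul_numRegularClasses p G
  rw [← hreg]
  constructor
  · intro h N
    refine ⟨N, fun g hg hd => ?_⟩
    obtain ⟨n, rfl⟩ : ∃ n, g = n + 1 := ⟨g - 1, by omega⟩
    rw [Nat.add_sub_cancel] at hd
    rw [h]
    exact (pow_dvd_pow _ (Nat.le_succ N)).trans (weight_mod (by omega) hd)
  · intro h
    by_contra hne
    set D : ℤ := ((Nat.card G * numWeights p G : ℕ) : ℤ) -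
      ((Nat.card G * numRegularClasses p G : ℕ) : ℤ) with hD
    have hD0 : D ≠ 0 := by
      rw [hD, sub_ne_zero]
      intro h1
      have h2 : Nat.card G * numWeights p G = Nat.card G * numRegularClasses p G := by
        exact_mod_cast h1
      exact hne (Nat.eq_of_mul_eq_mul_left Nat.card_pos h2).symm
    obtain ⟨N, hN⟩ : ∃ N : ℕ, |D| < (p : ℤ) ^ N := by
      refine ⟨D.natAbs, ?_⟩
      rw [Int.abs_eq_natAbs]
      exact_mod_cast Nat.lt_pow_self hp.out.one_lt
    obtain ⟨M, hM⟩ := h N
    set K := max M N with hK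
    set n := p ^ K * (p - 1) with hn
    have hn0 : n ≠ 0 := by
      have : 0 < p ^ K := pow_pos hp.out.pos _
      have : 0 < p - 1 := by omega
      positivity
    have h1 := hM (n + 1) (by omega) (by
      rw [Nat.add_sub_cancel, hn]
      exact Nat.mul_dvd_mul_right (pow_dvd_pow p (le_max_left M N)) _)
    have h2 : (p : ℤ) ^ N ∣ (weightHom p (n + 1) G : ℤ) - (Nat.card G * numWeights p G : ℕ) :=
      (pow_dvd_pow _ (by have := le_max_right M N; omega)).trans
        (weight_mod (p := p) (G := G) hn0 (dvd_refl n))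
    have h3 : (p : ℤ) ^ N ∣ D := by
      have := dvd_sub h1 h2
      rwa [sub_sub_sub_cancel_left] at this
    exact absurd (Int.eq_zero_of_abs_lt_dvd h3 hN) hD0

end

end Pool.Agent.Y63.KR
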